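import Pool.Agent.Lib.MP_5b6025_nt.RB.Core
import Pool.Agent.Lib.MP_5b6025_nt.DC.Tapp

/-!
# Module A: the theorem for digits at most `b^γ`
-/

set_option autoImplicit false

open Polynomial

namespace Pool.Agent.Lib.MP5b6025.RB

namespace AM

open CrM

theorem l1_le {P : ℤ[X]} {d b γ : ℕ} (hd : P.natDegree ≤ d)
    (h : ∀ i, |P.coeff i| ≤ (b : ℤ) ^ γ) : DC.l1 P ≤ (d + 1) * (b : ℝ) ^ γ := by
  unfold DC.l1
  have h1 : ∀ i ∈ P.support, |(P.coeff i : ℝ)| ≤ (b : ℝ) ^ γ := by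
    intro i _
    have := h i
    have h2 : ((|P.coeff i| : ℤ) : ℝ) ≤ (((b : ℤ) ^ γ : ℤ) : ℝ) := by exact_mod_cast this
    push_cast at h2
    exact h2
  refine (Finset.sum_le_card_nsmul _ _ _ h1).trans ?_
  rw [nsmul_eq_mul]
  apply mul_le_mul_of_nonneg_right _ (by positivity)
  have h3 : P.support.card ≤ P.natDegree + 1 := P.card_supp_le_succ_natDegree
  have h4 : ((P.support.card : ℕ) : ℝ) ≤ ((d + 1 : ℕ) : ℝ) := by exact_mod_cast h3.trans (by omega)
  push_cast at h4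
  exact h4

/-- The coefficients of `P(T) / (1 - b z)` and the truncated values. -/
theorem coeff_U (b : ℕ) (hb : 2 ≤ b) (t : ℕ → ℤ) (P : ℤ[X]) (i : ℕ) :
    ((PowerSeries.coeff i (aeval (DC.FF t) P * geo (b : ℤ)) : ℤ) : ℝ) =
      (b : ℝ) ^ i * DC.TT b t P ((i + 1 : ℕ) : ℤ) := by
  have hb0 : (b : ℝ) ≠ 0 := by positivity
  rw [DC.TT, DC.tau, Int.toNat_natCast, PowerSeries.coeff_mul,
    Finset.Nat.sum_antidiagonal_eq_sum_range_succ
      (fun k l => PowerSeries.coeff k (aeval (DC.FF t) P) * PowerSeries.coeff l (geo (b : ℤ))) i,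
    Finset.mul_sum]
  push_cast
  refine Finset.sum_congr rfl fun v hv => ?_
  rw [Finset.mem_range] at hv
  rw [geo, PowerSeries.coeff_mk]
  push_cast
  have h1 : (b : ℝ) ^ i = (b : ℝ) ^ (i - v) * (b : ℝ) ^ v := by
    rw [← pow_add]
    congr 1
    omega
  rw [h1]
  field_simp

/-- The number of nonzero coefficients of `P(T) / (1 - b z)`. -/
theorem cnt_U (b : ℕ) (hb : 2 ≤ b) (t : ℕ → ℤ) (P : ℤ[X]) (d γ N K : ℕ) (hd : 1 ≤ d)
    (hdN : d ≤ N) (ht : ∀ n, |t n| ≤ (b : ℤ) ^ γ) (hPd : P.natDegree ≤ d)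
    (hP : aeval (DC.bet b t) P = 0)
    (hK : DC.l1 P * DC.GG (b ^ γ) d N < (b : ℝ) ^ K) :
    cnt (N - K) (aeval (DC.FF t) P * geo (b : ℤ)) ≤ K * (cnt N (DC.FF t) + 1) ^ d := by
  classical
  set S := (Finset.range (N - K)).filter
    fun n => PowerSeries.coeff n (aeval (DC.FF t) P * geo (b : ℤ)) ≠ 0 with hS
  have hex : ∀ i ∈ S, ∃ v, DC.IsSum t d v ∧ i + 1 ≤ v ∧ v < i + 1 + K := by
    intro i hi
    rw [hS, Finset.mem_filter, Finset.mem_range] at hi
    by_contra hcon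
    push Not at hcon
    apply hi.2
    have h1 : DC.Gap t K d ((i + 1 : ℕ) : ℤ) := by
      intro v hv
      by_cases h2 : i + 1 ≤ v
      · right
        have := hcon v hv h2
        exact_mod_cast this
      · left
        exact_mod_cast (by omega : v < i + 1)
    have hB1 : 1 ≤ b ^ γ := Nat.one_le_pow _ _ (by omega)
    have h2 := (DC.specTAPP b t (b ^ γ) d N K P (i + 1) hb hB1 (fun n => by
      push_cast
      exact ht n) hd hdN hPd (by omega) h1).2 hP hK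
    have h3 := coeff_U b hb t P i
    rw [h2, mul_zero] at h3
    exact_mod_cast h3
  choose! v hv using hex
  have h1 : S.card ≤ K * (S.image v).card := by
    refine Finset.card_le_mul_card_image S K fun w _ => ?_
    refine (Finset.card_le_card (t := Finset.Ico (w - K) w) ?_).trans ?_
    · intro i hi
      rw [Finset.mem_filter] at hi
      obtain ⟨h2, h3, h4⟩ := hv i hi.1
      rw [hi.2] at h3 h4
      rw [Finset.mem_Ico]
      omega
    · rw [Nat.card_Ico]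
      omega
  have h2 : (S.image v).card ≤ (cnt N (DC.FF t) + 1) ^ d := by
    refine card_isSum t N d _ fun w hw => ?_
    obtain ⟨i, hi, rfl⟩ := Finset.mem_image.1 hw
    obtain ⟨h2, h3, h4⟩ := hv i hi
    rw [hS, Finset.mem_filter, Finset.mem_range] at hi
    exact ⟨by omega, h2⟩
  exact h1.trans (Nat.mul_le_mul_left K h2)

theorem exists_L (A : ℝ) (hA : 0 ≤ A) (k : ℕ) :
    ∃ L₀ : ℕ, ∀ L : ℕ, L₀ ≤ L → A * ((L : ℝ) + 1) ^ k + 1 < 2 ^ L := by
  have h1 := tendsto_pow_const_div_const_pow_of_one_lt k (r := (2 : ℝ)) (by norm_num)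
  have h2 : (0 : ℝ) < 1 / (4 * (A + 1)) := by positivity
  obtain ⟨L₀, hL⟩ := Filter.eventually_atTop.1 (h1.eventually_lt_const h2)
  refine ⟨max L₀ 2, fun L hL' => ?_⟩
  have h3 := hL (L + 1) (by
    have := (le_max_left _ _).trans hL'
    omega)
  have h4 : 2 ≤ L := (le_max_right _ _).trans hL'
  have h5 : (4 : ℝ) ≤ 2 ^ L := by
    calc (4 : ℝ) = 2 ^ 2 := by norm_num
      _ ≤ 2 ^ L := pow_le_pow_right₀ (by norm_num) h4
  push_cast at h3
  rw [div_lt_div_iff₀ (by positivity) (by positivity), one_mul, pow_succ] at h3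
  have h6 : 0 ≤ ((L : ℝ) + 1) ^ k := by positivity
  nlinarith

end AM

open AM CrM in
theorem specA (hCERT : SpecCERT) (hCORE : SpecCORE) : SpecA := by
  intro p d c₀ j hp hd
  obtain ⟨D, hC⟩ := hCERT p d c₀ j hp
  obtain ⟨Q, E, hcore'⟩ := hCORE p c₀ j D hp
  set m := E + 1 with hm
  set k := (d + 1) * m with hk
  have hk0 : 0 < k := by positivity
  have hk0' : (0 : ℝ) < k := by exact_mod_cast hk0
  refine ⟨1 / (2 * k), by positivity, fun γ => ?_⟩
  set c := γ * (d + 2) + 2 * (d + 1) with hc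
  set A : ℝ := (((Q + 1) * 2 ^ k * c ^ m : ℕ) : ℝ) ^ 2 with hA
  obtain ⟨L₀, hL₀⟩ := exists_L A (by positivity) (2 * m)
  refine ⟨max (2 ^ L₀) (max d 1), fun N b t P hN hb hpb ht hPd hPc hR hP => ?_⟩
  have hN1 : 2 ^ L₀ ≤ N := (le_max_left _ _).trans hN
  have hN2 : d ≤ N := ((le_max_left _ _).trans (le_max_right _ _)).trans hN
  have hN3 : 1 ≤ N := ((le_max_right _ _).trans (le_max_right _ _)).trans hN
  set L := Nat.log 2 (N + 1) with hL
  have hLL : L₀ ≤ L := by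
    rw [hL]
    exact Nat.le_log_of_pow_le (by norm_num) (by omega)
  have hL1 : 2 ^ L ≤ N + 1 := Nat.pow_log_le_self 2 (by omega)
  have hL2 : N + 1 < 2 ^ (L + 1) := Nat.lt_pow_succ_log_self (by norm_num) _
  set K := γ * (d + 2) + (d + 1) + (L + 1) * (d + 1) with hK
  have hK1 : 1 ≤ K := by
    rw [hK]
    have : 1 ≤ d + 1 := by omega
    omega
  have hKc : K ≤ c * (L + 1) := by
    rw [hK, hc]
    nlinarith [Nat.zero_le (γ * (d + 2) * L), Nat.zero_le ((d + 1) * L)]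
  have hb2 : (2 : ℝ) ≤ b := by exact_mod_cast hb
  have hb0 : (0 : ℝ) < b := by linarith
  have hKlt : DC.l1 P * DC.GG (b ^ γ) d N < (b : ℝ) ^ K := by
    have h1 := l1_le hPd hPc
    have h2 : ((d : ℝ) + 1) * 2 ≤ (b : ℝ) ^ (d + 1) := by
      have h3 : (d + 1) * 2 ≤ 2 ^ (d + 1) := by
        rw [pow_succ]
        exact Nat.mul_le_mul_right 2 (Nat.lt_two_pow_self)
      calc ((d : ℝ) + 1) * 2 = (((d + 1) * 2 : ℕ) : ℝ) := by push_cast; ring
        _ ≤ ((2 ^ (d + 1) : ℕ) : ℝ) := by exact_mod_cast h3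
        _ = (2 : ℝ) ^ (d + 1) := by push_cast; ring
        _ ≤ _ := pow_le_pow_left₀ (by norm_num) hb2 _
    have h3 : ((N : ℝ) + 1) ^ (d + 1) < (b : ℝ) ^ ((L + 1) * (d + 1)) := by
      have h4 : ((N : ℝ) + 1) < (2 : ℝ) ^ (L + 1) := by exact_mod_cast hL2
      calc ((N : ℝ) + 1) ^ (d + 1) < ((2 : ℝ) ^ (L + 1)) ^ (d + 1) :=
            pow_lt_pow_left₀ h4 (by positivity) (by omega)
        _ ≤ ((b : ℝ) ^ (L + 1)) ^ (d + 1) := by gcongr
        _ = _ := by rw [← pow_mul]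
    have hGG : DC.GG (b ^ γ) d N = 2 * ((b : ℝ) ^ (γ * (d + 1)) * ((N : ℝ) + 1) ^ (d + 1)) := by
      unfold DC.GG
      push_cast
      rw [mul_pow, ← pow_mul]
    rw [hGG]
    calc DC.l1 P * (2 * ((b : ℝ) ^ (γ * (d + 1)) * ((N : ℝ) + 1) ^ (d + 1))) ≤
        ((d + 1) * (b : ℝ) ^ γ) * (2 * ((b : ℝ) ^ (γ * (d + 1)) * ((N : ℝ) + 1) ^ (d + 1))) :=
          mul_le_mul_of_nonneg_right h1 (by positivity)
      _ = (((d : ℝ) + 1) * 2) * ((b : ℝ) ^ (γ * (d + 2)) * ((N : ℝ) + 1) ^ (d + 1)) := by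
          have : (b : ℝ) ^ (γ * (d + 2)) = (b : ℝ) ^ γ * (b : ℝ) ^ (γ * (d + 1)) := by
            rw [← pow_add]
            congr 1
            ring
          rw [this]
          ring
      _ ≤ (b : ℝ) ^ (d + 1) * ((b : ℝ) ^ (γ * (d + 2)) * ((N : ℝ) + 1) ^ (d + 1)) :=
          mul_le_mul_of_nonneg_right h2 (by positivity)
      _ < (b : ℝ) ^ (d + 1) * ((b : ℝ) ^ (γ * (d + 2)) * (b : ℝ) ^ ((L + 1) * (d + 1))) := by
          gcongr
      _ = (b : ℝ) ^ K := by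
          rw [← pow_add, ← pow_add]
          congr 1
          rw [hK]
          ring
  have hU := cnt_U b hb t P d γ N K hd hN2 ht hPd hP hKlt
  set s := cnt N (DC.FF t) with hs
  have hscard : s = ((Finset.range N).filter fun n => t n ≠ 0).card := by
    rw [hs, cnt]
    congr 1
    refine Finset.filter_congr fun n _ => ?_
    rw [DC.FF, PowerSeries.coeff_mk]
  have hgeo := geo_mul (b : ℤ)
  have hcore : N - K ≤ Q * (K * (s + 1) ^ d * (s + 1)) ^ m := by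
    refine (hcore' b t (aeval (DC.FF t) P * geo (b : ℤ)) P (N - K) s (K * (s + 1) ^ d) hpb
      (hC P hPd hR) (by
        calc aeval (DC.FF t) P = aeval (DC.FF t) P *
              ((1 - PowerSeries.C (b : ℤ) * PowerSeries.X) * geo (b : ℤ)) := by rw [hgeo, mul_one]
          _ = _ := by ring) (cnt_mono (Nat.sub_le N K) _) hU
        (Nat.mul_pos (by omega) (by positivity))).trans ?_
    refine Nat.mul_le_mul_left _ (Nat.pow_le_pow_right ?_ (by omega))
    exact Nat.mul_pos (Nat.mul_pos (by omega) (by positivity)) (by omega)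
  have hNle : N ≤ (Q + 1) * (c * (L + 1)) ^ m * (s + 1) ^ k := by
    have h1 : (K * (s + 1) ^ d * (s + 1)) ^ m = K ^ m * (s + 1) ^ k := by
      rw [mul_assoc, ← pow_succ, mul_pow, ← pow_mul, hk]
    have h2 : K ≤ K ^ m * (s + 1) ^ k :=
      (Nat.le_self_pow (by omega) K).trans (Nat.le_mul_of_pos_right _ (by positivity))
    have h3 : N ≤ (N - K) + K := by omega
    calc N ≤ (N - K) + K := h3
      _ ≤ Q * (K ^ m * (s + 1) ^ k) + K ^ m * (s + 1) ^ k := by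
          refine Nat.add_le_add ?_ h2
          rw [← h1]
          exact hcore
      _ = (Q + 1) * K ^ m * (s + 1) ^ k := by ring
      _ ≤ _ := by gcongr
  rw [← hscard]
  by_contra hcon
  push Not at hcon
  have hNr : (1 : ℝ) ≤ N := by exact_mod_cast hN3
  have hN0 : (0 : ℝ) < N := by linarith
  set x : ℝ := (N : ℝ) ^ (1 / (2 * (k : ℝ))) with hx
  have hx1 : 1 ≤ x := Real.one_le_rpow hNr (by positivity)
  have hxk : x ^ k * x ^ k = N := by
    rw [← pow_add, hx, ← Real.rpow_natCast, ← Real.rpow_mul hN0.le]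
    have : 1 / (2 * (k : ℝ)) * ((k + k : ℕ) : ℝ) = 1 := by
      push_cast
      field_simp
      ring
    rw [this, Real.rpow_one]
  have hs1 : ((s : ℝ) + 1) ^ k ≤ 2 ^ k * x ^ k := by
    rw [← mul_pow]
    exact pow_le_pow_left₀ (by positivity) (by linarith) k
  have h1 : (N : ℝ) ≤ ((Q : ℝ) + 1) * ((c : ℝ) * ((L : ℝ) + 1)) ^ m * ((s : ℝ) + 1) ^ k := by
    exact_mod_cast hNle
  have hxk0 : 0 < x ^ k := by positivity
  have h2 : x ^ k ≤ ((((Q + 1) * 2 ^ k * c ^ m : ℕ) : ℝ)) * ((L : ℝ) + 1) ^ m := by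
    have h3 : x ^ k * x ^ k ≤
        ((((Q + 1) * 2 ^ k * c ^ m : ℕ) : ℝ)) * ((L : ℝ) + 1) ^ m * x ^ k := by
      rw [hxk]
      calc (N : ℝ) ≤ ((Q : ℝ) + 1) * ((c : ℝ) * ((L : ℝ) + 1)) ^ m * ((s : ℝ) + 1) ^ k := h1
        _ ≤ ((Q : ℝ) + 1) * ((c : ℝ) * ((L : ℝ) + 1)) ^ m * (2 ^ k * x ^ k) := by gcongr
        _ = _ := by
          push_cast
          rw [mul_pow]
          ring
    exact le_of_mul_le_mul_right h3 hxk0
  have h3 : (N : ℝ) ≤ A * ((L : ℝ) + 1) ^ (2 * m) := by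
    calc (N : ℝ) = x ^ k * x ^ k := hxk.symm
      _ ≤ (((((Q + 1) * 2 ^ k * c ^ m : ℕ) : ℝ)) * ((L : ℝ) + 1) ^ m) *
          (((((Q + 1) * 2 ^ k * c ^ m : ℕ) : ℝ)) * ((L : ℝ) + 1) ^ m) := by gcongr
      _ = _ := by
        rw [hA]
        ring
  have h4 := hL₀ L hLL
  have h5 : (2 : ℝ) ^ L ≤ N + 1 := by exact_mod_cast hL1
  linarith

end Pool.Agent.Lib.MP5b6025.RB
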