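import Pool.Agent.Lib.MP_5b6025_nt.UB.B
import Pool.Agent.Lib.MP_5b6025_nt.RB.Spec

/-!
# Module B: change of the base
-/

set_option autoImplicit false

open Polynomial Filter

namespace Pool.Agent.Lib.MP5b6025.RB

open UB.BM

/-- Module B. -/
theorem specB (hA : SpecA) : SpecB := by
  intro p d c j hp hd
  obtain ⟨δ, hδ, hA⟩ := hA p d c j hp hd
  refine ⟨δ / 2, by positivity, fun e he he1 => ?_⟩
  obtain ⟨NA, hNA⟩ := hA 2
  have hT : Tendsto (fun N : ℕ => (N : ℝ) ^ (e / 2)) atTop atTop :=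
    (tendsto_rpow_atTop (by positivity)).comp tendsto_natCast_atTop_atTop
  have hev := ((hT.eventually_ge_atTop (max 4 NA)).and
    (eventually_ge_atTop 1)).exists_forall_of_atTop
  obtain ⟨N₀, hN₀⟩ := hev
  refine ⟨N₀, fun N b t P hN hb hpb ht hPd hPc hG hP => ?_⟩
  obtain ⟨h1, h3⟩ := hN₀ N hN
  have hN1 : (1 : ℝ) ≤ N := by exact_mod_cast h3
  have hN0 : (0 : ℝ) < N := by linarith
  have h4 : (4 : ℝ) ≤ (N : ℝ) ^ (e / 2) := (le_max_left _ _).trans h1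
  have h5 : (NA : ℝ) ≤ (N : ℝ) ^ (e / 2) := (le_max_right _ _).trans h1
  set M : ℕ := ⌈(N : ℝ) ^ (1 - e)⌉₊ with hM
  have hM0 : 0 < M := Nat.ceil_pos.2 (Real.rpow_pos_of_pos hN0 _)
  have hMle : (N : ℝ) ^ (1 - e) ≤ M := Nat.le_ceil _
  have hb1 : (1 : ℝ) ≤ b := by exact_mod_cast (by omega : 1 ≤ b)
  have hbM : (b : ℝ) ^ ((N : ℝ) ^ (1 - e)) ≤ (b : ℝ) ^ M := by
    rw [← Real.rpow_natCast]
    exact Real.rpow_le_rpow_of_exponent_le hb1 hMle
  have ht' : ∀ n, |t n| ≤ (b : ℤ) ^ M := by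
    intro n
    have := (ht n).trans hbM
    exact_mod_cast this
  have hP' : ∀ i, |P.coeff i| ≤ ((b ^ M : ℕ) : ℤ) ^ 2 := by
    intro i
    have h6 : |P.coeff i| ≤ (b : ℤ) ^ M := by
      have := (hPc i).trans hbM
      exact_mod_cast this
    have h7 : (1 : ℤ) ≤ (b : ℤ) ^ M := one_le_pow₀ (by exact_mod_cast (by omega : 1 ≤ b))
    push_cast
    nlinarith
  -- the number of digits
  have hMup : (M : ℝ) ≤ 2 * (N : ℝ) ^ (1 - e) := by
    have h6 : (M : ℝ) < (N : ℝ) ^ (1 - e) + 1 :=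
      Nat.ceil_lt_add_one (Real.rpow_nonneg hN0.le _)
    have h8 : (1 : ℝ) ≤ (N : ℝ) ^ (1 - e) := Real.one_le_rpow hN1 (by linarith)
    linarith
  have hM0' : (0 : ℝ) < M := by exact_mod_cast hM0
  have hN' : (N : ℝ) ^ (e / 2) ≤ ((N / M : ℕ) : ℝ) := by
    have h6 : (N : ℝ) / M < ((N / M : ℕ) : ℝ) + 1 := by
      rw [div_lt_iff₀ hM0']
      have h7 : N < (N / M + 1) * M := by
        have := Nat.lt_mul_div_succ N hM0
        rwa [mul_comm] at this
      exact_mod_cast h7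
    have h7 : (N : ℝ) ^ e / 2 ≤ (N : ℝ) / M := by
      rw [div_le_div_iff₀ (by norm_num) hM0']
      calc (N : ℝ) ^ e * M ≤ (N : ℝ) ^ e * (2 * (N : ℝ) ^ (1 - e)) := by gcongr
        _ = ((N : ℝ) ^ e * (N : ℝ) ^ (1 - e)) * 2 := by ring
        _ = N * 2 := by
            rw [← Real.rpow_add hN0]
            norm_num
    have h8 : (N : ℝ) ^ e = (N : ℝ) ^ (e / 2) * (N : ℝ) ^ (e / 2) := by
      rw [← Real.rpow_add hN0]
      ring_nf
    rw [h8] at h7
    nlinarith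
  have hNA' : NA ≤ N / M := by
    have := h5.trans hN'
    exact_mod_cast this
  have hmain := hNA (N / M) (b ^ M) (tp b M t) P hNA' (Nat.le_trans hb (Nat.le_self_pow hM0.ne' b))
    (fun h => hpb (hp.dvd_of_dvd_pow h)) (tp_bound hb ht') hPd hP' hG
    (by
      rw [bet_tp hb hM0 (B := b ^ M) (fun n => by push_cast; exact ht' n)]
      exact hP)
  have hcard := count_le (b := b) (N := N) hM0 t
  calc (N : ℝ) ^ (δ / 2 * e) = ((N : ℝ) ^ (e / 2)) ^ δ := by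
        rw [← Real.rpow_mul hN0.le]
        congr 1
        ring
    _ ≤ ((N / M : ℕ) : ℝ) ^ δ := Real.rpow_le_rpow (by positivity) hN' hδ.le
    _ ≤ _ := hmain
    _ ≤ _ := by exact_mod_cast hcard

end Pool.Agent.Lib.MP5b6025.RB
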