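import Pool.Agent.Lib.MP_5b6025_nt.RB.Core

/-!
# Module CERT: the condition `Ram`, uniform certificates
-/

set_option autoImplicit false

open Polynomial

namespace Pool.Agent.Lib.MP5b6025.RB

/-- The modulus on which `Ram` depends. -/
def Mx (p c j : ℕ) : ℕ := c * p ^ j + 1 + (2 * c + 2)

/-- `Ram` is inherited by `P'` if `θ P = γ P' + p^M E`, `M = Mx p c j`. -/
theorem ram_map (p c j : ℕ) (θ : ℤ[X] →+* ℤ[X]) (P P' γ E : ℤ[X])
    (h : θ P = γ * P' + (p : ℤ[X]) ^ Mx p c j * E) (hP : Ram p c j P) : Ram p c j P' := by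
  unfold Ram at hP ⊢
  set S : Set ℤ[X] := {F | F ^ p ^ j ∈ Ideal.span {(p : ℤ[X]) ^ (c * p ^ j + 1), P}} with hS
  set S' : Set ℤ[X] := {F | F ^ p ^ j ∈ Ideal.span {(p : ℤ[X]) ^ (c * p ^ j + 1), P'}} with hS'
  have h1 := Ideal.mem_map_of_mem θ hP
  rw [map_pow, map_natCast, Ideal.map_sup, Ideal.map_pow] at h1
  have hθ : ∀ m, m ≤ Mx p c j → θ P ∈ Ideal.span {(p : ℤ[X]) ^ m, P'} := by
    intro m hm
    rw [h]
    refine add_mem (Ideal.mul_mem_left _ _ (Ideal.subset_span (by simp))) (Ideal.mul_mem_right _ _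
      ?_)
    have h2 : (p : ℤ[X]) ^ Mx p c j = (p : ℤ[X]) ^ m * (p : ℤ[X]) ^ (Mx p c j - m) := by
      rw [← pow_add]
      congr 1
      omega
    rw [h2]
    exact Ideal.mul_mem_right _ _ (Ideal.subset_span (by simp))
  have hθs : ∀ m, m ≤ Mx p c j → Ideal.map θ (Ideal.span {(p : ℤ[X]) ^ m, P}) ≤
      Ideal.span {(p : ℤ[X]) ^ m, P'} := by
    intro m hm
    rw [Ideal.map_span, Ideal.span_le, Set.image_pair]
    rintro x (rfl | rfl)
    · rw [map_pow, map_natCast]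
      exact Ideal.subset_span (by simp)
    · exact hθ m hm
  have h2 : Ideal.map θ (Ideal.span S) ≤ Ideal.span S' := by
    rw [Ideal.map_span, Ideal.span_le]
    rintro x ⟨F, hF, rfl⟩
    apply Ideal.subset_span
    show θ F ^ p ^ j ∈ Ideal.span {(p : ℤ[X]) ^ (c * p ^ j + 1), P'}
    rw [← map_pow]
    exact hθs _ (by unfold Mx; omega) (Ideal.mem_map_of_mem θ hF)
  exact (sup_le_sup (Ideal.pow_right_mono h2 2) (hθs (2 * c + 2) (by unfold Mx; omega))) h1

theorem ram_congr (p c j : ℕ) (P P' E : ℤ[X]) (h : P = P' + (p : ℤ[X]) ^ Mx p c j * E)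
    (hP : Ram p c j P) : Ram p c j P' :=
  ram_map p c j (RingHom.id _) P P' 1 E (by rw [RingHom.id_apply, one_mul, h]) hP

/-- Elements of the square of the ideal generated by `S`. -/
theorem mem_sq (S : Set ℤ[X]) (hS : ∀ F ∈ S, ∀ g : ℤ[X], g * F ∈ S) (y : ℤ[X])
    (hy : y ∈ (Ideal.span S) ^ 2) :
    ∃ (k : ℕ) (f f' : Fin k → ℤ[X]), (∀ i, f i ∈ S) ∧ (∀ i, f' i ∈ S) ∧ y = ∑ i, f i * f' i := by
  rw [pow_two, Ideal.span_mul_span'] at hy
  refine Submodule.span_induction ?_ ?_ ?_ ?_ hy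
  · rintro x ⟨F, hF, F', hF', rfl⟩
    exact ⟨1, fun _ => F, fun _ => F', fun _ => hF, fun _ => hF', by simp⟩
  · exact ⟨0, fun i => i.elim0, fun i => i.elim0, fun i => i.elim0, fun i => i.elim0, by simp⟩
  · rintro x y _ _ ⟨k, f, f', h1, h2, h3⟩ ⟨l, g, g', h4, h5, h6⟩
    refine ⟨k + l, Fin.append f g, Fin.append f' g', fun i => ?_, fun i => ?_, ?_⟩
    · refine Fin.addCases (fun i => ?_) (fun i => ?_) i
      · rw [Fin.append_left]
        exact h1 i
      · rw [Fin.append_right]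
        exact h4 i
    · refine Fin.addCases (fun i => ?_) (fun i => ?_) i
      · rw [Fin.append_left]
        exact h2 i
      · rw [Fin.append_right]
        exact h5 i
    · rw [Fin.sum_univ_add, h3, h6]
      congr 1
      · refine Finset.sum_congr rfl fun i _ => ?_
        rw [Fin.append_left, Fin.append_left]
      · refine Finset.sum_congr rfl fun i _ => ?_
        rw [Fin.append_right, Fin.append_right]
  · rintro r x _ ⟨k, f, f', h1, h2, h3⟩
    refine ⟨k, fun i => r * f i, f', fun i => hS _ (h1 i) r, h2, ?_⟩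
    rw [h3, smul_eq_mul, Finset.mul_sum]
    exact Finset.sum_congr rfl fun i _ => by ring

theorem cert_exists (p c j : ℕ) (P : ℤ[X]) (hP : Ram p c j P) : ∃ D, Cert p c j D P := by
  unfold Ram at hP
  obtain ⟨y, hy, z, hz, hyz⟩ := Submodule.mem_sup.1 hP
  obtain ⟨k, f, f', h1, h2, h3⟩ := mem_sq _ (fun F hF g => by
    show (g * F) ^ p ^ j ∈ Ideal.span {(p : ℤ[X]) ^ (c * p ^ j + 1), P}
    rw [mul_pow]
    exact Ideal.mul_mem_left _ _ hF) y hy
  obtain ⟨R, Q, hQ⟩ := Ideal.mem_span_pair.1 hz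
  have h6 : ∀ i, ∃ a B, f i ^ p ^ j = (p : ℤ[X]) ^ (c * p ^ j + 1) * a + P * B := by
    intro i
    obtain ⟨a, B, h9⟩ := Ideal.mem_span_pair.1 (h1 i)
    exact ⟨a, B, by rw [← h9]; ring⟩
  have h7 : ∀ i, ∃ a B, f' i ^ p ^ j = (p : ℤ[X]) ^ (c * p ^ j + 1) * a + P * B := by
    intro i
    obtain ⟨a, B, h9⟩ := Ideal.mem_span_pair.1 (h2 i)
    exact ⟨a, B, by rw [← h9]; ring⟩
  choose a B hB using h6
  choose a' B' hB' using h7
  set D := k + Finset.univ.sup (fun i => (f i).natDegree) +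
    Finset.univ.sup (fun i => (f' i).natDegree) + Finset.univ.sup (fun i => (B i).natDegree) +
    Finset.univ.sup (fun i => (B' i).natDegree) + Q.natDegree with hD
  refine ⟨D, k, f, f', a, a', B, B', R, Q, by omega, fun i => ?_, fun i => ?_, fun i => ?_,
    fun i => ?_, by omega, hB, hB', ?_⟩
  · have := Finset.le_sup (f := fun i => (f i).natDegree) (Finset.mem_univ i)
    omega
  · have := Finset.le_sup (f := fun i => (f' i).natDegree) (Finset.mem_univ i)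
    omega
  · have := Finset.le_sup (f := fun i => (B i).natDegree) (Finset.mem_univ i)
    omega
  · have := Finset.le_sup (f := fun i => (B' i).natDegree) (Finset.mem_univ i)
    omega
  · rw [← h3, ← hyz, ← hQ]
    ring

theorem cert_mono (p c j D D' : ℕ) (h : D ≤ D') (P : ℤ[X]) (hC : Cert p c j D P) :
    Cert p c j D' P := by
  obtain ⟨k, f, f', a, a', B, B', R, Q, h1, h2, h3, h4, h5, h6, h7⟩ := hC
  exact ⟨k, f, f', a, a', B, B', R, Q, h1.trans h, fun i => (h2 i).trans h, fun i => (h3 i).trans h,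
    fun i => (h4 i).trans h, fun i => (h5 i).trans h, h6.trans h, h7⟩

theorem cert_congr (p c j D : ℕ) (P P₀ E : ℤ[X]) (h : P = P₀ + (p : ℤ[X]) ^ Mx p c j * E)
    (hC : Cert p c j D P₀) : Cert p c j D P := by
  obtain ⟨k, f, f', a, a', B, B', R, Q, h1, h2, h3, h4, h5, h6, h7, h8, h9⟩ := hC
  have h0 : P₀ = P - (p : ℤ[X]) ^ (c * p ^ j + 1) * ((p : ℤ[X]) ^ (2 * c + 2) * E) := by
    rw [h, Mx, pow_add]
    ring
  have h0' : P₀ = P - (p : ℤ[X]) ^ (2 * c + 2) * ((p : ℤ[X]) ^ (c * p ^ j + 1) * E) := by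
    rw [h, Mx, pow_add]
    ring
  refine ⟨k, f, f', fun i => a i - (p : ℤ[X]) ^ (2 * c + 2) * E * B i,
    fun i => a' i - (p : ℤ[X]) ^ (2 * c + 2) * E * B' i, B, B',
    R - (p : ℤ[X]) ^ (c * p ^ j + 1) * E * Q, Q, h1, h2, h3, h4, h5, h6, fun i => ?_, fun i => ?_,
    ?_⟩
  · rw [h7 i, h0]
    ring
  · rw [h8 i, h0]
    ring
  · conv_lhs => rw [h9]
    rw [h0']
    ring

/-- The polynomial with coefficients `v`. -/
noncomputable def Lf (m d : ℕ) (v : Fin (d + 1) → ZMod m) : ℤ[X] :=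
  ∑ i : Fin (d + 1), C (((v i).val : ℕ) : ℤ) * X ^ (i : ℕ)

theorem exists_Lf (p M d : ℕ) (hp : p.Prime) (P : ℤ[X]) (hP : P.natDegree ≤ d) :
    ∃ (v : Fin (d + 1) → ZMod (p ^ M)) (E : ℤ[X]), P = Lf (p ^ M) d v + (p : ℤ[X]) ^ M * E := by
  have hp0 : NeZero (p ^ M) := ⟨pow_ne_zero M hp.ne_zero⟩
  have h1 : ∀ i : Fin (d + 1), ∃ e : ℤ,
      P.coeff i = (((P.coeff i : ZMod (p ^ M)).val : ℕ) : ℤ) + (p : ℤ) ^ M * e := by
    intro i
    have h2 : ((p ^ M : ℕ) : ℤ) ∣ P.coeff i - (((P.coeff i : ZMod (p ^ M)).val : ℕ) : ℤ) := by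
      rw [← ZMod.intCast_zmod_eq_zero_iff_dvd]
      push_cast
      rw [ZMod.natCast_val, ZMod.cast_id', id, sub_self]
    obtain ⟨e, he⟩ := h2
    refine ⟨e, ?_⟩
    push_cast at he
    linarith
  choose e he using h1
  refine ⟨fun i => (P.coeff i : ZMod (p ^ M)), ∑ i : Fin (d + 1), C (e i) * X ^ (i : ℕ), ?_⟩
  have h2 : P = ∑ i : Fin (d + 1), C (P.coeff i) * X ^ (i : ℕ) := by
    conv_lhs => rw [P.as_sum_range_C_mul_X_pow' (n := d + 1) (by omega)]
    rw [Finset.sum_range]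
  conv_lhs => rw [h2]
  rw [Lf, Finset.mul_sum, ← Finset.sum_add_distrib]
  refine Finset.sum_congr rfl fun i _ => ?_
  conv_lhs => rw [he i]
  rw [map_add, map_mul, map_pow]
  have h3 : (C (p : ℤ) : ℤ[X]) = (p : ℤ[X]) := by simp
  rw [h3]
  ring

theorem specCERT : SpecCERT := by
  intro p d c j hp
  have hp0 : NeZero (p ^ Mx p c j) := ⟨pow_ne_zero _ hp.ne_zero⟩
  have h2 : ∀ v : Fin (d + 1) → ZMod (p ^ Mx p c j), ∃ D : ℕ, Ram p c j (Lf (p ^ Mx p c j) d v) →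
      Cert p c j D (Lf (p ^ Mx p c j) d v) := by
    intro v
    by_cases h : Ram p c j (Lf (p ^ Mx p c j) d v)
    · obtain ⟨D, hD⟩ := cert_exists p c j _ h
      exact ⟨D, fun _ => hD⟩
    · exact ⟨0, fun h2 => absurd h2 h⟩
  choose D hD using h2
  refine ⟨Finset.univ.sup D, fun P hPd hP => ?_⟩
  obtain ⟨v, E, hE⟩ := exists_Lf p (Mx p c j) d hp P hPd
  have h3 := ram_congr p c j P (Lf (p ^ Mx p c j) d v) E hE hP
  exact cert_congr p c j _ P (Lf (p ^ Mx p c j) d v) E hE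
    (cert_mono p c j _ _ (Finset.le_sup (Finset.mem_univ v)) _ (hD v h3))

/-- `Ram` fails for the zero polynomial: otherwise the core bound for `T = 0` would bound all `N`. -/
theorem ram_ne_zero (p c j : ℕ) (hp : p.Prime) (P : ℤ[X]) (hP : Ram p c j P) : P ≠ 0 := by
  rintro rfl
  obtain ⟨D, hD⟩ := cert_exists p c j 0 hP
  obtain ⟨C, E, hCE⟩ := specCORE p c j D hp
  have h1 := hCE 1 (fun _ => 0) 0 0 (C + 1) 0 1 (fun h => hp.one_lt.ne' (Nat.dvd_one.1 h)) hD
    (by simp) (by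
      refine le_of_eq ?_
      rw [cnt, Finset.card_eq_zero, Finset.filter_eq_empty_iff]
      intro n _
      rw [DC.FF, PowerSeries.coeff_mk]
      simp) (by rw [cnt_zero]; exact Nat.zero_le 1) le_rfl
  simp at h1

end Pool.Agent.Lib.MP5b6025.RB
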