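import Pool.Agent.Lib.MP_5b6025_nt.UB.C
import Pool.Agent.Lib.MP_5b6025_nt.RB.Crt

/-!
# Module C: the digits of algebraic numbers in all bases
-/

set_option autoImplicit false

open Polynomial

namespace Pool.Agent.Lib.MP5b6025.RB

open UB

theorem ram_comp (p c j : ℕ) (P : ℤ[X]) (I : ℤ) (h : Ram p c j P) :
    Ram p c j (P.comp (X + C I)) := by
  refine ram_map p c j (compRingHom (X + C I)) P _ 1 0 ?_ h
  rw [one_mul, mul_zero, add_zero]
  rfl

theorem ram_scaleRoots (p c j : ℕ) (hp : p.Prime) (P : ℤ[X]) (s : ℤ) (hs : ¬ (p : ℤ) ∣ s)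
    (h : Ram p c j P) : Ram p c j (P.scaleRoots s) := by
  have hpi : Prime (p : ℤ) := Nat.prime_iff_prime_int.1 hp
  set M := Mx p c j with hM
  have h1 : IsCoprime ((p : ℤ) ^ M) s := ((Prime.coprime_iff_not_dvd hpi).2 hs).pow_left
  obtain ⟨v, s', h2⟩ := h1
  have h3 : (p : ℤ) ^ M ∣ s * s' - 1 := ⟨-v, by linarith⟩
  have h4 : C ((p : ℤ) ^ M) ∣ P.comp (C s' * X) - C (s' ^ P.natDegree) * P.scaleRoots s := by
    rw [C_dvd_iff_dvd_coeff]
    intro i
    rw [coeff_sub, comp_C_mul_X_coeff, coeff_C_mul, coeff_scaleRoots]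
    by_cases hi : i ≤ P.natDegree
    · have h5 : s' ^ P.natDegree = s' ^ i * s' ^ (P.natDegree - i) := by
        rw [← pow_add]
        congr 1
        omega
      have h6 : P.coeff i * s' ^ i - s' ^ P.natDegree * (P.coeff i * s ^ (P.natDegree - i)) =
          - (P.coeff i * s' ^ i) * ((s * s') ^ (P.natDegree - i) - 1 ^ (P.natDegree - i)) := by
        rw [h5, mul_pow, one_pow]
        ring
      rw [h6]
      exact Dvd.dvd.mul_left (h3.trans (sub_dvd_pow_sub_pow _ _ _)) _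
    · rw [coeff_eq_zero_of_natDegree_lt (by omega)]
      simp
  obtain ⟨E, hE⟩ := h4
  refine ram_map p c j (compRingHom (C s' * X)) P _ (C (s' ^ P.natDegree)) E ?_ h
  have h5 : (compRingHom (C s' * X)) P = P.comp (C s' * X) := rfl
  have h6 : (C ((p : ℤ) ^ M) : ℤ[X]) = (p : ℤ[X]) ^ M := by simp
  rw [h5, ← h6, ← hE]
  ring

theorem specC (h : SpecB) : SpecC := by
  intro p d c j hp hd
  obtain ⟨δ, hδ, h⟩ := h p d c j hp hd
  refine ⟨δ / 2, by positivity, fun e he he1 => ?_⟩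
  have hmin : min (e / 2) (1 / 2) = e / 2 := min_eq_left (by linarith)
  obtain ⟨N₁, hN₁⟩ := CM.exists_large ((9 * d + 3 : ℕ) : ℝ) e he
  rw [hmin] at hN₁
  obtain ⟨N₂, hN₂⟩ := h (e / 2) (by linarith) (by linarith)
  refine ⟨max N₁ N₂, fun N b W g x hN hb hpb hWd hgd hW hg hR hx => ?_⟩
  have hN1 := hN₁ N ((le_max_left _ _).trans hN)
  set E : ℝ := (N : ℝ) ^ (1 - e) with hE
  have hE0 : 0 ≤ E := by positivity
  have hb2 : (2 : ℝ) ≤ b := by exact_mod_cast hb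
  have hb1 : (1 : ℝ) ≤ b := by linarith
  have hb0 : (0 : ℝ) < b := by linarith
  set A : ℝ := (b : ℝ) ^ (E + 1) with hA
  have hAE : (b : ℝ) ^ E ≤ A := Real.rpow_le_rpow_of_exponent_le hb1 (by linarith)
  have hbA : (b : ℝ) ≤ A := by
    calc (b : ℝ) = (b : ℝ) ^ (1 : ℝ) := (Real.rpow_one _).symm
      _ ≤ A := Real.rpow_le_rpow_of_exponent_le hb1 (by linarith)
  have hA2 : 2 ≤ A := hb2.trans hbA
  have hA1 : 1 ≤ A := by linarith
  have hA0 : 0 ≤ A := by linarith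
  have hEA : E + 1 ≤ A := by
    have h1 := one_add_mul_self_le_rpow_one_add (s := (1 : ℝ)) (by norm_num)
      (p := E + 1) (by linarith)
    have h2 : (1 + 1 : ℝ) ^ (E + 1) ≤ A :=
      Real.rpow_le_rpow (by norm_num) (by linarith) (by linarith)
    linarith
  have hgA : (g.natDegree : ℝ) + 1 ≤ A := by linarith
  have hbg : (b : ℝ) ^ g.natDegree ≤ A := by
    rw [← Real.rpow_natCast]
    exact (Real.rpow_le_rpow_of_exponent_le hb1 hgd).trans hAE
  have hW' : ∀ i, |(W.coeff i : ℝ)| ≤ A := fun i => (hW i).trans hAE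
  have hg' : ∀ i, |(g.coeff i : ℝ)| ≤ A := fun i => (hg i).trans hAE
  have hW0 : W ≠ 0 := ram_ne_zero p c j hp W hR
  -- the numbers
  set s : ℤ := (b : ℤ) * g.eval (b : ℤ) with hs
  set I : ℤ := b * ∑ j ∈ g.support, g.coeff j * ⌊x * (b : ℝ) ^ j⌋ with hI
  set t : ℕ → ℤ := fun n => g.sum fun j a => a * DC.digit b x (n + j) with ht
  have hbet : DC.bet b t = (s : ℝ) * x - I := DD.FINM.bet_rel b x hb g
  have htA : ∀ n, |(t n : ℝ)| ≤ A ^ 3 := fun n => CM.abs_dig_le g b x A hb hbA hg' hgA n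
  set y : ℝ := ((g.eval (b : ℤ) : ℤ) : ℝ) * x with hy
  have hsx : (s : ℝ) * x = ((b : ℤ) : ℝ) * y := by
    rw [hs, hy]
    push_cast
    ring
  have hbetA : |DC.bet b t| ≤ A ^ 4 := by
    have h1 := CM.abs_bet_le b t (A ^ 3) hb htA
    have h2 : 2 * A ^ 3 ≤ A * A ^ 3 := by gcongr
    calc |DC.bet b t| ≤ 2 * A ^ 3 := h1
      _ ≤ A * A ^ 3 := h2
      _ = A ^ 4 := by ring
  have hyA : |y| ≤ A ^ 2 := by
    have h1 := CM.root_le W y A hW0 hx hA0 hW'
    nlinarith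
  have hbZ : |((b : ℤ) : ℝ)| ≤ A := by
    rw [Int.cast_natCast, Nat.abs_cast]
    exact hbA
  have hIA : |(I : ℝ)| ≤ A ^ 7 := by
    have h1 : (I : ℝ) = ((b : ℤ) : ℝ) * y - DC.bet b t := by rw [hbet, hsx]; ring
    have h2 : |(I : ℝ)| ≤ |((b : ℤ) : ℝ)| * |y| + |DC.bet b t| := by
      rw [h1, ← abs_mul]
      exact abs_sub _ _
    have h3 : |((b : ℤ) : ℝ)| * |y| ≤ A * A ^ 2 := mul_le_mul hbZ hyA (abs_nonneg _) (by positivity)
    have h4 : A ^ 3 ≤ A ^ 6 := pow_le_pow_right₀ hA1 (by norm_num)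
    have h4' : A ^ 4 ≤ A ^ 6 := pow_le_pow_right₀ hA1 (by norm_num)
    have h5 : 2 * A ^ 6 ≤ A * A ^ 6 := by gcongr
    calc |(I : ℝ)| ≤ A * A ^ 2 + A ^ 4 := by linarith
      _ ≤ 2 * A ^ 6 := by
          have : A * A ^ 2 = A ^ 3 := by ring
          linarith
      _ ≤ A * A ^ 6 := h5
      _ = A ^ 7 := by ring
  have hbZ' : |((b : ℤ) : ℝ)| ≤ A ^ 7 := by
    refine hbZ.trans ?_
    calc A = A ^ 1 := (pow_one _).symm
      _ ≤ A ^ 7 := pow_le_pow_right₀ hA1 (by norm_num)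
  have hcast : ∀ k : ℕ, k ≤ 9 * d + 3 →
      A ^ k ≤ (b : ℝ) ^ ((N : ℝ) ^ (1 - e / 2)) := by
    intro k hk
    rw [hA, ← Real.rpow_natCast, ← Real.rpow_mul hb0.le]
    refine Real.rpow_le_rpow_of_exponent_le hb1 (le_trans ?_ hN1)
    rw [mul_comm]
    have h1 : (k : ℝ) ≤ ((9 * d + 3 : ℕ) : ℝ) := by exact_mod_cast hk
    exact mul_le_mul_of_nonneg_right h1 (by linarith)
  have hexp : δ / 2 * e = δ * (e / 2) := by ring
  rw [hexp]
  have hRS : Ram p c j (CM.Sh W b I) :=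
    ram_comp p c j _ I (ram_scaleRoots p c j hp W b (fun h0 => hpb (by exact_mod_cast h0)) hR)
  refine hN₂ N b t (CM.Sh W b I) ((le_max_right _ _).trans hN) hb hpb
    (fun n => (htA n).trans (hcast 3 (by omega))) ?_ (fun i => ?_) hRS ?_
  · rw [CM.natDegree_Sh]
    exact hWd
  · exact (CM.coeff_Sh W b I A d 7 hA2 hWd hW' hbZ' hIA i).trans (hcast _ (by omega))
  · rw [hbet, hsx]
    exact CM.aeval_Sh W b I y hx

end Pool.Agent.Lib.MP5b6025.RB
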