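import Pool.Agent.Lib.MP_5b6025_nt.RB.Spec
import Pool.Agent.Lib.MP_5b6025_nt.DC.Supp
import Pool.Agent.Lib.MP_5b6025_nt.DC.Gaps

/-!
# Counting the nonzero coefficients
-/

set_option autoImplicit false

open Polynomial

namespace Pool.Agent.Lib.MP5b6025.RB

theorem cnt_mono {N N' : ℕ} (h : N ≤ N') (G : PowerSeries ℤ) : cnt N G ≤ cnt N' G :=
  Finset.card_le_card (Finset.filter_subset_filter _ (Finset.range_mono h))

theorem cnt_add (N : ℕ) (G H : PowerSeries ℤ) : cnt N (G + H) ≤ cnt N G + cnt N H := by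
  classical
  refine (Finset.card_le_card ?_).trans (Finset.card_union_le _ _)
  intro n hn
  rw [Finset.mem_filter] at hn
  rw [Finset.mem_union, Finset.mem_filter, Finset.mem_filter]
  by_cases h : PowerSeries.coeff n G ≠ 0
  · exact Or.inl ⟨hn.1, h⟩
  · right
    refine ⟨hn.1, fun h2 => hn.2 ?_⟩
    push Not at h
    rw [map_add, h, h2, add_zero]

theorem cnt_neg (N : ℕ) (G : PowerSeries ℤ) : cnt N (-G) = cnt N G := by
  unfold cnt
  congr 1
  refine Finset.filter_congr fun n _ => ?_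
  rw [map_neg, neg_ne_zero]

theorem cnt_sub (N : ℕ) (G H : PowerSeries ℤ) : cnt N (G - H) ≤ cnt N G + cnt N H := by
  rw [sub_eq_add_neg, ← cnt_neg N H]
  exact cnt_add N G (-H)

theorem cnt_zero (N : ℕ) : cnt N 0 = 0 := by
  unfold cnt
  rw [Finset.card_eq_zero, Finset.filter_eq_empty_iff]
  intro n _
  simp

theorem cnt_sum (N : ℕ) {k : ℕ} (G : Fin k → PowerSeries ℤ) (c : ℕ) (h : ∀ i, cnt N (G i) ≤ c) :
    cnt N (∑ i, G i) ≤ k * c := by
  classical
  have h1 : ∀ s : Finset (Fin k), cnt N (∑ i ∈ s, G i) ≤ s.card * c := by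
    intro s
    induction s using Finset.induction_on with
    | empty =>
      rw [Finset.sum_empty, cnt_zero]
      exact Nat.zero_le _
    | insert a s ha ih =>
      rw [Finset.sum_insert ha, Finset.card_insert_of_notMem ha]
      refine (cnt_add N _ _).trans ?_
      have := h a
      nlinarith
  have h2 := h1 Finset.univ
  rwa [Finset.card_univ, Fintype.card_fin] at h2

theorem cnt_mul (N : ℕ) (G H : PowerSeries ℤ) : cnt N (G * H) ≤ cnt N G * cnt N H := by
  classical
  refine (Finset.card_le_card ?_).trans (Finset.card_image₂_le (· + ·) _ _)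
  intro n hn
  rw [Finset.mem_filter, Finset.mem_range, PowerSeries.coeff_mul] at hn
  obtain ⟨⟨i, j⟩, hij, h2⟩ := Finset.exists_ne_zero_of_sum_ne_zero hn.2
  rw [Finset.HasAntidiagonal.mem_antidiagonal] at hij
  refine Finset.mem_image₂.2 ⟨i, ?_, j, ?_, hij⟩
  · rw [Finset.mem_filter, Finset.mem_range]
    simp only at hij
    exact ⟨by omega, left_ne_zero_of_mul h2⟩
  · rw [Finset.mem_filter, Finset.mem_range]
    simp only at hij
    exact ⟨by omega, right_ne_zero_of_mul h2⟩

theorem cnt_C_mul (N : ℕ) {c : ℤ} (hc : c ≠ 0) (G : PowerSeries ℤ) :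
    cnt N (PowerSeries.C c * G) = cnt N G := by
  unfold cnt
  congr 1
  refine Finset.filter_congr fun n _ => ?_
  rw [PowerSeries.coeff_C_mul]
  simp [hc]

/-- A factor `1 - b z` at most doubles the number of nonzero coefficients. -/
theorem cnt_one_sub (N : ℕ) (c : ℤ) (G : PowerSeries ℤ) :
    cnt N ((1 - PowerSeries.C c * PowerSeries.X) * G) ≤ 2 * cnt N G := by
  classical
  have h1 : cnt N (PowerSeries.C c * PowerSeries.X * G) ≤ cnt N G := by
    unfold cnt
    refine (Finset.card_le_card (t := ((Finset.range N).filter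
      fun n => PowerSeries.coeff n G ≠ 0).image (· + 1)) ?_).trans Finset.card_image_le
    intro n hn
    rw [Finset.mem_filter, Finset.mem_range, mul_assoc, PowerSeries.coeff_C_mul] at hn
    cases n with
    | zero =>
      exfalso
      apply hn.2
      rw [PowerSeries.coeff_zero_X_mul, mul_zero]
    | succ n =>
      rw [PowerSeries.coeff_succ_X_mul] at hn
      refine Finset.mem_image.2 ⟨n, ?_, rfl⟩
      rw [Finset.mem_filter, Finset.mem_range]
      exact ⟨by omega, right_ne_zero_of_mul hn.2⟩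
  have h2 : (1 - PowerSeries.C c * PowerSeries.X) * G = G - PowerSeries.C c * PowerSeries.X * G := by
    ring
  rw [h2]
  refine (cnt_sub N _ _).trans ?_
  omega

/-- The coefficients of `f (T)` live on the sums of at most `deg f` positions. -/
theorem isSum_of_coeff (t : ℕ → ℤ) (f : ℤ[X]) (D : ℕ) (hf : f.natDegree ≤ D) (n : ℕ)
    (h : PowerSeries.coeff n (aeval (DC.FF t) f) ≠ 0) : DC.IsSum t D n := by
  rw [aeval_eq_sum_range' (n := D + 1) (by omega), map_sum] at h
  obtain ⟨r, hr, h2⟩ := Finset.exists_ne_zero_of_sum_ne_zero h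
  rw [Finset.mem_range] at hr
  have h3 : PowerSeries.coeff n (DC.FF t ^ r) ≠ 0 := by
    intro h4
    apply h2
    rw [map_smul, h4, smul_zero]
  have h5 : ∀ (r n : ℕ), PowerSeries.coeff n (DC.FF t ^ r) ≠ 0 →
      ∃ ν : Multiset ℕ, ν.card = r ∧ (∀ x ∈ ν, t x ≠ 0) ∧ ν.sum = n := by
    intro r
    induction r with
    | zero =>
      intro n hn
      rw [pow_zero, PowerSeries.coeff_one] at hn
      by_cases h0 : n = 0
      · exact ⟨0, rfl, fun x hx => absurd hx (Multiset.notMem_zero x), h0.symm⟩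
      · rw [if_neg h0] at hn
        exact absurd rfl hn
    | succ r ih =>
      intro n hn
      rw [pow_succ, PowerSeries.coeff_mul] at hn
      obtain ⟨⟨i, j⟩, hij, h6⟩ := Finset.exists_ne_zero_of_sum_ne_zero hn
      rw [Finset.HasAntidiagonal.mem_antidiagonal] at hij
      simp only at hij h6
      obtain ⟨ν, h7, h8, h9⟩ := ih i (left_ne_zero_of_mul h6)
      have h10 := right_ne_zero_of_mul h6
      rw [DC.FF, PowerSeries.coeff_mk] at h10
      refine ⟨j ::ₘ ν, by rw [Multiset.card_cons, h7], fun x hx => ?_, ?_⟩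
      · rcases Multiset.mem_cons.1 hx with rfl | hx
        · exact h10
        · exact h8 x hx
      · rw [Multiset.sum_cons, h9, ← hij, add_comm]
  obtain ⟨ν, h7, h8, h9⟩ := h5 r n h3
  exact ⟨ν, by omega, h8, h9⟩

/-- The number of sums of at most `D` positions below `N`. -/
theorem card_isSum (t : ℕ → ℤ) (N D : ℕ) (S : Finset ℕ) (hS : ∀ n ∈ S, n < N ∧ DC.IsSum t D n) :
    S.card ≤ (cnt N (DC.FF t) + 1) ^ D := by
  classical
  refine (Finset.card_le_card (t := DC.GapsM.T ((Finset.range N).filter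
    fun n => PowerSeries.coeff n (DC.FF t) ≠ 0) D) ?_).trans (DC.GapsM.card_T _ _ le_rfl D)
  intro n hn
  obtain ⟨h1, ν, h2, h3, h4⟩ := hS n hn
  rw [← h4]
  refine DC.GapsM.mem_T _ _ ν h2 fun x hx => ?_
  rw [Finset.mem_filter, Finset.mem_range, DC.FF, PowerSeries.coeff_mk]
  have h8 : x ≤ ν.sum := Multiset.le_sum_of_mem hx
  exact ⟨by omega, h3 x hx⟩

theorem cnt_aeval (t : ℕ → ℤ) (N D : ℕ) (f : ℤ[X]) (hf : f.natDegree ≤ D) :
    cnt N (aeval (DC.FF t) f) ≤ (cnt N (DC.FF t) + 1) ^ D := by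
  refine card_isSum t N D _ fun n hn => ?_
  rw [Finset.mem_filter, Finset.mem_range] at hn
  exact ⟨hn.1, isSum_of_coeff t f D hf n hn.2⟩

end Pool.Agent.Lib.MP5b6025.RB
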