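import Pool.Agent.Lib.MP_5b6025_nt.RB.Cnt

/-!
# Module CORE
-/

set_option autoImplicit false

open Polynomial

namespace Pool.Agent.Lib.MP5b6025.RB

namespace CrM

/-- `∑ b^n z^n`. -/
noncomputable def geo {R : Type} [CommRing R] (b : R) : PowerSeries R := PowerSeries.mk fun n => b ^ n

theorem geo_mul {R : Type} [CommRing R] (b : R) :
    (1 - PowerSeries.C b * PowerSeries.X) * geo b = 1 := by
  ext n
  rw [sub_mul, one_mul, map_sub, mul_assoc, PowerSeries.coeff_C_mul, PowerSeries.coeff_one]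
  cases n with
  | zero => simp [geo]
  | succ n =>
    rw [PowerSeries.coeff_succ_X_mul, geo, PowerSeries.coeff_mk, PowerSeries.coeff_mk]
    simp only [Nat.add_eq_zero_iff, one_ne_zero, and_false, if_false]
    ring

/-- Frobenius for power series over `ZMod p`. -/
theorem pow_eq_expand (p : ℕ) [Fact p.Prime] (j : ℕ) (F : PowerSeries (ZMod p)) :
    F ^ p ^ j = PowerSeries.expand (p ^ j) (pow_ne_zero j (Fact.out : p.Prime).ne_zero) F := by
  have h := MvPowerSeries.map_iterateFrobenius_expand (R := ZMod p) p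
    (Fact.out : p.Prime).ne_zero F j
  have h2 : iterateFrobenius (ZMod p) p j = RingHom.id _ := Subsingleton.elim _ _
  rw [h2, MvPowerSeries.map_id] at h
  exact h.symm

/-- The coefficient of `z^(q n)` of `H` is the `n`-th coefficient of `F / (1 - b z)`, if
`F^q = (1 - b z) H`. -/
theorem coeff_H (p : ℕ) [Fact p.Prime] (j : ℕ) (b : ZMod p) (F H : PowerSeries (ZMod p))
    (h : F ^ p ^ j = (1 - PowerSeries.C b * PowerSeries.X) * H) (n : ℕ) :
    PowerSeries.coeff (p ^ j * n) H = PowerSeries.coeff n (F * geo b) := by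
  have hp : p.Prime := Fact.out
  have hq : p ^ j ≠ 0 := pow_ne_zero j hp.ne_zero
  have hbq : b ^ p ^ j = b := by
    rw [← iterateFrobenius_def]
    have h2 : iterateFrobenius (ZMod p) p j = RingHom.id _ := Subsingleton.elim _ _
    rw [h2, RingHom.id_apply]
  rw [pow_eq_expand] at h
  -- recursion for `H`
  have hH : ∀ i, PowerSeries.coeff (i + 1) H = b * PowerSeries.coeff i H +
      PowerSeries.coeff (i + 1) (PowerSeries.expand (p ^ j) hq F) := by
    intro i
    rw [h, sub_mul, one_mul, map_sub, mul_assoc, PowerSeries.coeff_C_mul,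
      PowerSeries.coeff_succ_X_mul]
    ring
  have hH0 : PowerSeries.coeff 0 H = PowerSeries.coeff 0 F := by
    have h1 := congrArg (PowerSeries.coeff 0) h
    have h2 := PowerSeries.coeff_expand_mul (p ^ j) hq F 0
    rw [mul_zero] at h2
    rw [h2, sub_mul, one_mul, map_sub, mul_assoc, PowerSeries.coeff_C_mul,
      PowerSeries.coeff_zero_X_mul, mul_zero, sub_zero] at h1
    exact h1.symm
  have hblock : ∀ m r, r < p ^ j →
      PowerSeries.coeff (p ^ j * m + r) H = b ^ r * PowerSeries.coeff (p ^ j * m) H := by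
    intro m r
    induction r with
    | zero => intro _; simp
    | succ r ih =>
      intro hr
      rw [← add_assoc, hH, ih (by omega), PowerSeries.coeff_expand_of_not_dvd, add_zero]
      · ring
      · intro h3
        have h4 : p ^ j ∣ r + 1 := by
          have h5 : p ^ j ∣ p ^ j * m + (r + 1) := by rwa [← add_assoc]
          exact (Nat.dvd_add_right (dvd_mul_right _ _)).1 h5
        exact absurd (Nat.le_of_dvd (by omega) h4) (by omega)
  have hV : ∀ n, PowerSeries.coeff (n + 1) (F * geo b) =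
      b * PowerSeries.coeff n (F * geo b) + PowerSeries.coeff (n + 1) F := by
    intro n
    have h1 : F = (1 - PowerSeries.C b * PowerSeries.X) * (F * geo b) := by
      have := geo_mul b
      calc F = F * ((1 - PowerSeries.C b * PowerSeries.X) * geo b) := by rw [this, mul_one]
        _ = _ := by ring
    have h2 := congrArg (PowerSeries.coeff (n + 1)) h1
    rw [sub_mul, one_mul, map_sub, mul_assoc, PowerSeries.coeff_C_mul,
      PowerSeries.coeff_succ_X_mul] at h2
    rw [h2]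
    ring
  induction n with
  | zero =>
    rw [mul_zero, hH0]
    simp [PowerSeries.coeff_mul, geo]
  | succ n ih =>
    obtain ⟨q', hq'⟩ : ∃ q', p ^ j = q' + 1 := ⟨p ^ j - 1, by
      have := Nat.pos_of_ne_zero hq
      omega⟩
    have h1 : p ^ j * (n + 1) = (p ^ j * n + q') + 1 := by
      rw [mul_add, mul_one]
      omega
    have h2 := PowerSeries.coeff_expand_mul (p ^ j) hq F (n + 1)
    rw [hV, ← ih, ← h2, h1, hH, hblock n q' (by omega)]
    have h3 : b * (b ^ q' * PowerSeries.coeff (p ^ j * n) H) =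
        b ^ p ^ j * PowerSeries.coeff (p ^ j * n) H := by
      rw [hq', pow_succ]
      ring
    rw [h3, hbq]

/-- One step: if `y^q = p w + (1 - b z) H` then `y = (1 - b z) A + p y'` with few nonzero
coefficients. -/
theorem step (p j b : ℕ) (hp : p.Prime) (y w H : PowerSeries ℤ) (N N' : ℕ)
    (h : y ^ p ^ j = PowerSeries.C (p : ℤ) * w +
      (1 - PowerSeries.C (b : ℤ) * PowerSeries.X) * H) (hN : p ^ j * N' ≤ N) :
    ∃ A y' : PowerSeries ℤ, y =
      (1 - PowerSeries.C (b : ℤ) * PowerSeries.X) * A + PowerSeries.C (p : ℤ) * y' ∧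
      cnt N' A ≤ cnt N H ∧ cnt N' y' ≤ cnt N' y + 2 * cnt N H := by
  classical
  have : Fact p.Prime := ⟨hp⟩
  have hq0 : 0 < p ^ j := pow_pos hp.pos j
  set V : PowerSeries ℤ := y * geo (b : ℤ) with hV
  set φ := PowerSeries.map (Int.castRingHom (ZMod p)) with hφ
  have hmod : (φ y) ^ p ^ j = (1 - PowerSeries.C (b : ZMod p) * PowerSeries.X) * φ H := by
    rw [← map_pow, h, map_add, map_mul, map_mul, map_sub, map_one, map_mul, hφ,
      PowerSeries.map_C, PowerSeries.map_C, PowerSeries.map_X]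
    simp
  have hgeo : φ (geo (b : ℤ)) = geo (b : ZMod p) := by
    ext n
    rw [hφ, PowerSeries.coeff_map, geo, geo, PowerSeries.coeff_mk, PowerSeries.coeff_mk]
    simp
  have hcoef : ∀ n, ((PowerSeries.coeff (p ^ j * n) H : ℤ) : ZMod p) =
      ((PowerSeries.coeff n V : ℤ) : ZMod p) := by
    intro n
    have h1 := coeff_H p j (b : ZMod p) (φ y) (φ H) hmod n
    rw [← hgeo, ← map_mul, hφ, PowerSeries.coeff_map, PowerSeries.coeff_map] at h1
    exact h1
  set A : PowerSeries ℤ := PowerSeries.mk fun n =>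
    if (p : ℤ) ∣ PowerSeries.coeff n V then 0 else PowerSeries.coeff n V with hA
  set V' : PowerSeries ℤ := PowerSeries.mk fun n =>
    if (p : ℤ) ∣ PowerSeries.coeff n V then PowerSeries.coeff n V / p else 0 with hV'
  have hVAV : V = A + PowerSeries.C (p : ℤ) * V' := by
    ext n
    rw [map_add, PowerSeries.coeff_C_mul, hA, hV', PowerSeries.coeff_mk, PowerSeries.coeff_mk]
    split_ifs with h
    · rw [Int.mul_ediv_cancel' h, zero_add]
    · ring
  set y' : PowerSeries ℤ := (1 - PowerSeries.C (b : ℤ) * PowerSeries.X) * V' with hy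
  have hFAy : y = (1 - PowerSeries.C (b : ℤ) * PowerSeries.X) * A + PowerSeries.C (p : ℤ) * y' := by
    have h1 : y = (1 - PowerSeries.C (b : ℤ) * PowerSeries.X) * V := by
      have := geo_mul (b : ℤ)
      calc y = y * ((1 - PowerSeries.C (b : ℤ) * PowerSeries.X) * geo (b : ℤ)) := by
            rw [this, mul_one]
        _ = _ := by rw [hV]; ring
    rw [hy]
    conv_lhs => rw [h1, hVAV]
    ring
  have hAc : cnt N' A ≤ cnt N H := by
    unfold cnt
    refine Finset.card_le_card_of_injOn (fun n => p ^ j * n) ?_ ?_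
    · intro n hn
      rw [Finset.mem_coe, Finset.mem_filter, Finset.mem_range] at hn ⊢
      refine ⟨lt_of_lt_of_le (Nat.mul_lt_mul_of_pos_left hn.1 hq0) hN, ?_⟩
      have h1 := hn.2
      rw [hA, PowerSeries.coeff_mk] at h1
      have h2 : ¬ (p : ℤ) ∣ PowerSeries.coeff n V := fun h => h1 (if_pos h)
      intro h3
      apply h2
      have h4 := hcoef n
      rw [h3, Int.cast_zero] at h4
      exact (ZMod.intCast_zmod_eq_zero_iff_dvd _ _).1 h4.symm
    · intro n _ m _ h
      exact Nat.eq_of_mul_eq_mul_left hq0 h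
  refine ⟨A, y', hFAy, hAc, ?_⟩
  have h1 : cnt N' y' = cnt N' (PowerSeries.C (p : ℤ) * y') :=
    (cnt_C_mul N' (by exact_mod_cast hp.ne_zero) y').symm
  have h2 : PowerSeries.C (p : ℤ) * y' = y - (1 - PowerSeries.C (b : ℤ) * PowerSeries.X) * A :=
    eq_sub_of_add_eq' hFAy.symm
  rw [h1, h2]
  refine (cnt_sub N' _ _).trans ?_
  have h3 := cnt_one_sub N' (b : ℤ) A
  omega

theorem cnt_pow (N : ℕ) (G : PowerSeries ℤ) (κ : ℕ) (h : cnt N G ≤ κ) (k : ℕ) :
    cnt N (G ^ k) ≤ κ ^ k := by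
  induction k with
  | zero =>
    rw [pow_zero, pow_zero]
    refine (Finset.card_le_card (t := {0}) ?_).trans (Finset.card_singleton 0).le
    intro n hn
    rw [Finset.mem_filter, PowerSeries.coeff_one] at hn
    rw [Finset.mem_singleton]
    by_contra h0
    exact hn.2 (if_neg h0)
  | succ k ih =>
    rw [pow_succ, pow_succ]
    exact (cnt_mul N _ _).trans (Nat.mul_le_mul ih h)

theorem cnt_sum_range (N q : ℕ) (G : ℕ → PowerSeries ℤ) (c : ℕ) (h : ∀ i < q, cnt N (G i) ≤ c) :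
    cnt N (∑ i ∈ Finset.range q, G i) ≤ q * c := by
  induction q with
  | zero => rw [Finset.sum_range_zero, cnt_zero, zero_mul]
  | succ q ih =>
    rw [Finset.sum_range_succ]
    refine (cnt_add N _ _).trans ?_
    have h1 := ih fun i hi => h i (by omega)
    have h2 := h q (by omega)
    rw [add_mul, one_mul]
    omega

/-- The induction: `f(T) = (1 - b z) A + p^i y`, for `i ≤ c + 1`. -/
theorem steps (p c j D : ℕ) (hp : p.Prime) (i : ℕ) (hi : i ≤ c + 1) :
    ∃ C E : ℕ, ∀ (b : ℕ) (t : ℕ → ℤ) (U : PowerSeries ℤ) (P f a B : ℤ[X]) (N s u : ℕ),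
      aeval (DC.FF t) P = (1 - PowerSeries.C (b : ℤ) * PowerSeries.X) * U →
      f.natDegree ≤ D → B.natDegree ≤ D →
      f ^ p ^ j = (p : ℤ[X]) ^ (c * p ^ j + 1) * a + P * B →
      cnt N (DC.FF t) ≤ s → cnt N U ≤ u → 1 ≤ u →
      ∃ A y : PowerSeries ℤ, aeval (DC.FF t) f =
        (1 - PowerSeries.C (b : ℤ) * PowerSeries.X) * A + PowerSeries.C ((p : ℤ) ^ i) * y ∧
        cnt (N / (p ^ j) ^ i) A ≤ C * (u * (s + 1)) ^ E ∧
        cnt (N / (p ^ j) ^ i) y ≤ C * (u * (s + 1)) ^ E := by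
  have hq0 : 0 < p ^ j := pow_pos hp.pos j
  induction i with
  | zero =>
    refine ⟨1, D, fun b t U P f a B N s u hPU hf hB hfe hs hu hu1 => ⟨0, aeval (DC.FF t) f, ?_, ?_, ?_⟩⟩
    · simp
    · rw [cnt_zero]
      exact Nat.zero_le _
    · rw [pow_zero, Nat.div_one, one_mul]
      refine (cnt_aeval t N D f hf).trans (Nat.pow_le_pow_left ?_ D)
      exact (Nat.add_le_add_right hs 1).trans (Nat.le_mul_of_pos_left _ (by omega))
  | succ i ih =>
    obtain ⟨C₀, E₀, hCE⟩ := ih (by omega)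
    refine ⟨(C₀ + 1) + 2 * (1 + p ^ j * (C₀ + 1) ^ p ^ j), (E₀ + D + 1) * p ^ j, ?_⟩
    intro b t U P f a B N s u hPU hf hB hfe hs hu hu1
    obtain ⟨A, y, hFA, hA, hy⟩ := hCE b t U P f a B N s u hPU hf hB hfe hs hu hu1
    set T := DC.FF t with hT
    set F : PowerSeries ℤ := aeval T f with hF
    set e : PowerSeries ℤ := 1 - PowerSeries.C (b : ℤ) * PowerSeries.X with he
    set π : PowerSeries ℤ := PowerSeries.C (p : ℤ) with hπ
    set Y := u * (s + 1) with hY
    have hY1 : 1 ≤ Y := Nat.mul_pos (by omega) (by omega)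
    set N₁ := N / (p ^ j) ^ i with hN₁
    have hN₁N : N₁ ≤ N := Nat.div_le_self _ _
    set κ := (C₀ + 1) * Y ^ (E₀ + D + 1) with hκ
    have hκ1 : 1 ≤ κ := Nat.mul_pos (by omega) (Nat.pow_pos (by omega))
    have hYle : Y ^ E₀ ≤ Y ^ (E₀ + D + 1) := Nat.pow_le_pow_right hY1 (by omega)
    have hκA : C₀ * Y ^ E₀ ≤ κ := Nat.mul_le_mul (by omega) hYle
    have hπi : PowerSeries.C ((p : ℤ) ^ i) = π ^ i := by rw [hπ, ← map_pow]
    rw [hπi] at hFA
    set x : PowerSeries ℤ := π ^ i * y with hx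
    have hsD : (s + 1) ^ D ≤ Y ^ (E₀ + D + 1) :=
      (Nat.pow_le_pow_left (Nat.le_mul_of_pos_left (s + 1) (by omega : 0 < u)) D).trans
        (Nat.pow_le_pow_right hY1 (by omega))
    have hcntF : cnt N₁ F ≤ κ := by
      refine ((cnt_mono hN₁N F).trans (cnt_aeval t N D f hf)).trans ?_
      refine (Nat.pow_le_pow_left (Nat.add_le_add_right hs 1) D).trans (hsD.trans ?_)
      exact Nat.le_mul_of_pos_left _ (by omega)
    have hcntx : cnt N₁ x ≤ κ := by
      have h1 : x = PowerSeries.C ((p : ℤ) ^ i) * y := by rw [hx, hπi]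
      rw [h1, cnt_C_mul N₁ (pow_ne_zero i (by exact_mod_cast hp.ne_zero))]
      exact hy.trans hκA
    -- the cofactor
    set G : PowerSeries ℤ := ∑ k ∈ Finset.range (p ^ j), x ^ k * F ^ (p ^ j - 1 - k) with hG
    have hGx : G * (x - F) = x ^ p ^ j - F ^ p ^ j := geom_sum₂_mul _ _ _
    have hxF : x - F = - (e * A) := by
      rw [hFA]
      ring
    have hcntG : cnt N₁ G ≤ p ^ j * κ ^ (p ^ j - 1) := by
      refine cnt_sum_range N₁ _ _ _ fun k hk => ?_
      refine (cnt_mul N₁ _ _).trans ?_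
      have h1 : κ ^ (p ^ j - 1) = κ ^ k * κ ^ (p ^ j - 1 - k) := by
        rw [← pow_add]
        congr 1
        omega
      rw [h1]
      exact Nat.mul_le_mul (cnt_pow N₁ x κ hcntx k) (cnt_pow N₁ F κ hcntF _)
    set H : PowerSeries ℤ := aeval T B * U - A * G with hH
    have hcntH : cnt N₁ H ≤ Y ^ (E₀ + D + 1) + p ^ j * κ ^ p ^ j := by
      refine (cnt_sub N₁ _ _).trans (Nat.add_le_add ?_ ?_)
      · refine (cnt_mul N₁ _ _).trans ?_
        have h1 : cnt N₁ (aeval T B) ≤ (s + 1) ^ D :=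
          ((cnt_mono hN₁N _).trans (cnt_aeval t N D B hB)).trans
            (Nat.pow_le_pow_left (Nat.add_le_add_right hs 1) D)
        have h2 : cnt N₁ U ≤ u := (cnt_mono hN₁N U).trans hu
        calc cnt N₁ (aeval T B) * cnt N₁ U ≤ (s + 1) ^ D * u := Nat.mul_le_mul h1 h2
          _ ≤ Y ^ D * Y := by
              refine Nat.mul_le_mul (Nat.pow_le_pow_left ?_ D) ?_
              · exact Nat.le_mul_of_pos_left _ (by omega)
              · exact Nat.le_mul_of_pos_right _ (by omega)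
          _ = Y ^ (D + 1) := (pow_succ _ _).symm
          _ ≤ _ := Nat.pow_le_pow_right hY1 (by omega)
      · refine (cnt_mul N₁ _ _).trans ?_
        calc cnt N₁ A * cnt N₁ G ≤ κ * (p ^ j * κ ^ (p ^ j - 1)) :=
              Nat.mul_le_mul (hA.trans hκA) hcntG
          _ = p ^ j * (κ ^ (p ^ j - 1) * κ) := by ring
          _ = p ^ j * κ ^ p ^ j := by
              rw [← pow_succ]
              congr 2
              omega
    have hpT : ((p : ℕ) : PowerSeries ℤ) = π := by rw [hπ]; simp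
    have hFq : F ^ p ^ j = π ^ (c * p ^ j + 1) * aeval T a + e * U * aeval T B := by
      rw [hF, ← map_pow, hfe, map_add, map_mul, map_mul, hPU, map_pow, map_natCast, hpT]
    have hxq : x ^ p ^ j = π ^ (c * p ^ j + 1) * aeval T a + e * H := by
      have h1 : x ^ p ^ j = F ^ p ^ j + G * (x - F) := by rw [hGx]; ring
      rw [h1, hFq, hxF, hH]
      ring
    -- division by `p^(i q)`
    have hxq' : x ^ p ^ j = π ^ (i * p ^ j) * y ^ p ^ j := by
      rw [hx, mul_pow, ← pow_mul]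
    have hexp : c * p ^ j + 1 = i * p ^ j + ((c - i) * p ^ j + 1) := by
      have h1 : c = i + (c - i) := by omega
      conv_lhs => rw [h1]
      ring
    set H' : PowerSeries ℤ :=
      geo (b : ℤ) * (y ^ p ^ j - π ^ ((c - i) * p ^ j + 1) * aeval T a) with hH'
    have hgeo := geo_mul (b : ℤ)
    have hHH' : H = PowerSeries.C ((p : ℤ) ^ (i * p ^ j)) * H' := by
      have h1 : PowerSeries.C ((p : ℤ) ^ (i * p ^ j)) = π ^ (i * p ^ j) := by rw [hπ, ← map_pow]
      have h2 : e * H = π ^ (i * p ^ j) * (y ^ p ^ j - π ^ ((c - i) * p ^ j + 1) * aeval T a) := by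
        have h3 : e * H = x ^ p ^ j - π ^ (c * p ^ j + 1) * aeval T a := by rw [hxq]; ring
        rw [h3, hxq', hexp, pow_add]
        ring
      calc H = (e * geo (b : ℤ)) * H := by rw [hgeo, one_mul]
        _ = geo (b : ℤ) * (e * H) := by ring
        _ = _ := by
          rw [h2, h1, hH']
          ring
    have hyq : y ^ p ^ j = π * (π ^ ((c - i) * p ^ j) * aeval T a) + e * H' := by
      have h1 : e * H' = y ^ p ^ j - π ^ ((c - i) * p ^ j + 1) * aeval T a := by
        calc e * H' = (e * geo (b : ℤ)) * (y ^ p ^ j - π ^ ((c - i) * p ^ j + 1) * aeval T a) := by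
              rw [hH']; ring
          _ = _ := by rw [hgeo, one_mul]
      rw [h1, pow_succ]
      ring
    have hdiv : p ^ j * (N / (p ^ j) ^ (i + 1)) ≤ N₁ := by
      rw [hN₁, pow_succ, ← Nat.div_div_eq_div_mul]
      exact Nat.mul_div_le _ _
    obtain ⟨A', y', h1, h2, h3⟩ := step p j b hp y _ H' N₁ _ hyq hdiv
    have hcH' : cnt N₁ H' ≤ Y ^ (E₀ + D + 1) + p ^ j * κ ^ p ^ j := by
      rw [← cnt_C_mul N₁ (pow_ne_zero (i * p ^ j) (by exact_mod_cast hp.ne_zero : (p : ℤ) ≠ 0)) H',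
        ← hHH']
      exact hcntH
    set N₂ := N / (p ^ j) ^ (i + 1) with hN₂
    have hN₂N : N₂ ≤ N₁ := (Nat.le_mul_of_pos_left N₂ hq0).trans hdiv
    have hfin : κ + 2 * (Y ^ (E₀ + D + 1) + p ^ j * κ ^ p ^ j) ≤
        ((C₀ + 1) + 2 * (1 + p ^ j * (C₀ + 1) ^ p ^ j)) * Y ^ ((E₀ + D + 1) * p ^ j) := by
      have h4 : Y ^ (E₀ + D + 1) ≤ Y ^ ((E₀ + D + 1) * p ^ j) :=
        Nat.pow_le_pow_right hY1 (Nat.le_mul_of_pos_right _ hq0)
      have h5 : κ ^ p ^ j = (C₀ + 1) ^ p ^ j * Y ^ ((E₀ + D + 1) * p ^ j) := by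
        rw [hκ, mul_pow, ← pow_mul]
      have h6 : κ ≤ (C₀ + 1) * Y ^ ((E₀ + D + 1) * p ^ j) := Nat.mul_le_mul_left _ h4
      rw [h5]
      calc κ + 2 * (Y ^ (E₀ + D + 1) + p ^ j * ((C₀ + 1) ^ p ^ j * Y ^ ((E₀ + D + 1) * p ^ j)))
          ≤ (C₀ + 1) * Y ^ ((E₀ + D + 1) * p ^ j) + 2 * (Y ^ ((E₀ + D + 1) * p ^ j) +
            p ^ j * ((C₀ + 1) ^ p ^ j * Y ^ ((E₀ + D + 1) * p ^ j))) := by gcongr
        _ = _ := by ring
    refine ⟨A + PowerSeries.C ((p : ℤ) ^ i) * A', y', ?_, ?_, ?_⟩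
    · have h4 : PowerSeries.C ((p : ℤ) ^ (i + 1)) = π ^ i * π := by
        rw [pow_succ, map_mul, hπi]
      rw [hFA, h4, hπi, hx]
      conv_lhs => rw [h1]
      ring
    · refine le_trans ?_ hfin
      refine (cnt_add N₂ _ _).trans ?_
      rw [cnt_C_mul N₂ (pow_ne_zero i (by exact_mod_cast hp.ne_zero))]
      have h4 : cnt N₂ A ≤ κ := ((cnt_mono hN₂N A).trans hA).trans hκA
      have h5 := h2.trans hcH'
      omega
    · refine le_trans ?_ hfin
      have h4 : cnt N₂ y ≤ κ := ((cnt_mono hN₂N y).trans hy).trans hκA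
      omega

end CrM

open CrM

theorem specCORE : SpecCORE := by
  classical
  intro p c j D hp
  obtain ⟨C₀, E₀, hCE⟩ := steps p c j D hp (c + 1) le_rfl
  have hq0 : 0 < p ^ j := pow_pos hp.pos j
  set Q₀ := (p ^ j) ^ (c + 1) with hQ₀
  have hQ₀0 : 0 < Q₀ := pow_pos hq0 _
  refine ⟨Q₀ * ((2 * D + 2) * (C₀ + 1) ^ 2), 2 * (E₀ + D + 1), ?_⟩
  intro b t U P N s u hpb hC hPU hs hu hu1
  obtain ⟨k, f, f', a, a', B, B', R, Q, hkD, hfD, hf'D, hBD, hB'D, hQD, hf, hf', hpe⟩ := hC
  set T := DC.FF t with hT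
  set N' := N / Q₀ with hN'
  have h1 := fun i => hCE b t U P (f i) (a i) (B i) N s u hPU (hfD i) (hBD i) (hf i) hs hu hu1
  have h2 := fun i => hCE b t U P (f' i) (a' i) (B' i) N s u hPU (hf'D i) (hB'D i) (hf' i) hs hu hu1
  choose A y hF hA hy using h1
  choose A' y' hF' hA' hy' using h2
  set e : PowerSeries ℤ := 1 - PowerSeries.C (b : ℤ) * PowerSeries.X with he
  set π : PowerSeries ℤ := PowerSeries.C ((p : ℤ) ^ (c + 1)) with hπ
  set S : PowerSeries ℤ := ∑ i, (A i * aeval T (f' i) + π * (y i * A' i)) + U * aeval T Q with hS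
  set Z : PowerSeries ℤ := ∑ i, y i * y' i + aeval T R with hZ
  have hππ : π ^ 2 = PowerSeries.C ((p : ℤ) ^ (2 * c + 2)) := by
    rw [hπ, ← map_pow, ← pow_mul]
    congr 2
    ring
  have hpT : PowerSeries.C ((p : ℤ) ^ (2 * c + 1)) = e * S + π ^ 2 * Z := by
    have h3 := congrArg (aeval T) hpe
    rw [map_add, map_add, map_sum, map_mul, map_mul, map_pow, map_pow, map_natCast, hPU] at h3
    have h4 : ∀ m : ℕ, ((p : ℕ) : PowerSeries ℤ) ^ m = PowerSeries.C ((p : ℤ) ^ m) := by
      intro m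
      rw [map_pow]
      simp
    rw [h4, h4, ← hππ] at h3
    have h5 : ∀ i, aeval T (f i * f' i) =
        e * (A i * aeval T (f' i) + π * (y i * A' i)) + π ^ 2 * (y i * y' i) := by
      intro i
      rw [map_mul, hF i]
      have h6 := hF' i
      calc (e * A i + π * y i) * aeval T (f' i) =
          e * (A i * aeval T (f' i)) + π * y i * aeval T (f' i) := by ring
        _ = e * (A i * aeval T (f' i)) + π * y i * (e * A' i + π * y' i) := by rw [← h6]
        _ = _ := by ring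
    rw [Finset.sum_congr rfl fun i _ => h5 i, Finset.sum_add_distrib, ← Finset.mul_sum,
      ← Finset.mul_sum] at h3
    rw [h3, hS, hZ]
    ring
  have hcoef : ∀ i, PowerSeries.coeff i S ≠ 0 := by
    intro i h0
    have h3 : PowerSeries.C ((p : ℤ) ^ (2 * c + 1)) * geo (b : ℤ) =
        S + PowerSeries.C ((p : ℤ) ^ (2 * c + 2)) * (Z * geo (b : ℤ)) := by
      have h4 := geo_mul (b : ℤ)
      rw [hpT, hππ]
      calc (e * S + PowerSeries.C ((p : ℤ) ^ (2 * c + 2)) * Z) * geo (b : ℤ) =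
          (e * geo (b : ℤ)) * S + PowerSeries.C ((p : ℤ) ^ (2 * c + 2)) * (Z * geo (b : ℤ)) := by
            ring
        _ = _ := by rw [h4, one_mul]
    have h4 := congrArg (PowerSeries.coeff i) h3
    rw [map_add, h0, zero_add, PowerSeries.coeff_C_mul, PowerSeries.coeff_C_mul, geo,
      PowerSeries.coeff_mk] at h4
    have hp0 : (p : ℤ) ^ (2 * c + 1) ≠ 0 := pow_ne_zero _ (by exact_mod_cast hp.ne_zero)
    have h6 : (b : ℤ) ^ i = p * PowerSeries.coeff i (Z * PowerSeries.mk fun n => (b : ℤ) ^ n) := by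
      apply mul_left_cancel₀ hp0
      rw [h4]
      ring
    have h7 : (p : ℤ) ∣ (b : ℤ) ^ i := ⟨_, h6⟩
    have h8 : p ∣ b ^ i := by exact_mod_cast h7
    exact hpb (hp.dvd_of_dvd_pow h8)
  have hcnt : N' = cnt N' S := by
    unfold cnt
    rw [Finset.filter_true_of_mem fun n _ => hcoef n, Finset.card_range]
  set Y := u * (s + 1) with hY
  have hY1 : 1 ≤ Y := Nat.mul_pos (by omega) (by omega)
  set h := (C₀ + 1) * Y ^ (E₀ + D + 1) with hh
  have hN'N : N' ≤ N := Nat.div_le_self _ _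
  have hle0 : C₀ * Y ^ E₀ ≤ h :=
    Nat.mul_le_mul (by omega) (Nat.pow_le_pow_right hY1 (by omega))
  have hle : (s + 1) ^ D ≤ h := by
    refine ((Nat.pow_le_pow_left (Nat.le_mul_of_pos_left (s + 1) (by omega : 0 < u)) D).trans
      (Nat.pow_le_pow_right hY1 (by omega : D ≤ E₀ + D + 1))).trans ?_
    exact Nat.le_mul_of_pos_left _ (by omega)
  have hule : u ≤ h := by
    refine (Nat.le_mul_of_pos_right u (by omega : 0 < s + 1)).trans ?_
    refine (Nat.le_self_pow (by omega : E₀ + D + 1 ≠ 0) Y).trans ?_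
    exact Nat.le_mul_of_pos_left _ (by omega)
  have hcT : ∀ g : ℤ[X], g.natDegree ≤ D → cnt N' (aeval T g) ≤ h := by
    intro g hg
    exact ((cnt_aeval t N' D g hg).trans (Nat.pow_le_pow_left
      (Nat.add_le_add_right ((cnt_mono hN'N _).trans hs) 1) D)).trans hle
  have hbound : N' ≤ D * (2 * (h * h)) + h * h := by
    rw [hcnt, hS]
    refine (cnt_add N' _ _).trans (Nat.add_le_add ?_ ?_)
    · refine (cnt_sum N' _ (2 * (h * h)) fun i => ?_).trans (Nat.mul_le_mul_right _ hkD)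
      refine (cnt_add N' _ _).trans ?_
      rw [hπ, cnt_C_mul N' (pow_ne_zero _ (by exact_mod_cast hp.ne_zero))]
      have h3 : cnt N' (A i * aeval T (f' i)) ≤ h * h :=
        (cnt_mul N' _ _).trans (Nat.mul_le_mul ((hA i).trans hle0) (hcT _ (hf'D i)))
      have h4 : cnt N' (y i * A' i) ≤ h * h :=
        (cnt_mul N' _ _).trans (Nat.mul_le_mul ((hy i).trans hle0) ((hA' i).trans hle0))
      omega
    · refine (cnt_mul N' _ _).trans (Nat.mul_le_mul ?_ (hcT _ hQD))
      exact ((cnt_mono hN'N U).trans hu).trans hule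
  have hhh : h * h = (C₀ + 1) ^ 2 * Y ^ (2 * (E₀ + D + 1)) := by
    rw [hh]
    ring
  have hlt : N < Q₀ * (N' + 1) := by
    rw [hN']
    exact Nat.lt_mul_div_succ N hQ₀0
  have hone : 1 ≤ h * h := by
    rw [hhh]
    exact Nat.mul_pos (Nat.pow_pos (by omega)) (Nat.pow_pos (by omega))
  calc N ≤ Q₀ * (N' + 1) := hlt.le
    _ ≤ Q₀ * ((2 * D + 2) * (h * h)) := by
        apply Nat.mul_le_mul_left
        nlinarith
    _ = _ := by
        rw [hhh]
        ring

end Pool.Agent.Lib.MP5b6025.RB
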