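import Pool.Agent.Lib.MP_5b6025_nt.RB.Spec

/-!
# Modules EIS, QUA: Eisenstein polynomials, quadratic polynomials
-/

set_option autoImplicit false

open Polynomial

namespace Pool.Agent.Lib.MP5b6025.RB

/-- Bezout with a number prime to `p`. -/
theorem bez (p : ℕ) (hp : p.Prime) (a : ℤ) (ha : ¬ (p : ℤ) ∣ a) :
    ∃ u v : ℤ, (1 : ℤ[X]) = C u * C a + C v * (p : ℤ[X]) := by
  have hpi : Prime (p : ℤ) := Nat.prime_iff_prime_int.1 hp
  have hC : (C (p : ℤ) : ℤ[X]) = (p : ℤ[X]) := by simp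
  have h1 : IsCoprime (p : ℤ) a := (Prime.coprime_iff_not_dvd hpi).2 ha
  obtain ⟨v, u, h2⟩ := h1
  refine ⟨u, v, ?_⟩
  rw [← hC, ← map_mul, ← map_mul, ← map_add, ← map_one C]
  congr 1
  linarith

theorem specEIS : SpecEIS := by
  intro p j P hp hdeg hdj hE
  have hq0 : 0 < p ^ j := pow_pos hp.pos j
  set n := P.natDegree with hn
  set S : Set ℤ[X] := {F | F ^ p ^ j ∈ Ideal.span {(p : ℤ[X]) ^ (0 * p ^ j + 1), P}} with hS
  set J := Ideal.span S with hJ
  have hp1 : (p : ℤ[X]) ^ (0 * p ^ j + 1) = p := by rw [zero_mul, zero_add, pow_one]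
  have hC : (C (p : ℤ) : ℤ[X]) = (p : ℤ[X]) := by simp
  have hpI : (p : ℤ[X]) ∈ Ideal.span {(p : ℤ[X]), P} := Ideal.subset_span (by simp)
  have hPI : P ∈ Ideal.span {(p : ℤ[X]), P} := Ideal.subset_span (by simp)
  have hpJ : (p : ℤ[X]) ∈ J := by
    apply Ideal.subset_span
    show (p : ℤ[X]) ^ p ^ j ∈ Ideal.span {(p : ℤ[X]) ^ (0 * p ^ j + 1), P}
    rw [hp1]
    exact Ideal.pow_mem_of_mem _ hpI _ hq0
  have hlc : ¬ (p : ℤ) ∣ P.leadingCoeff := by
    intro h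
    exact hE.leading (Ideal.mem_span_singleton.2 h)
  have hco : ∀ i, i < n → (p : ℤ) ∣ P.coeff i := fun i hi =>
    Ideal.mem_span_singleton.1 (hE.mem hi)
  have hsum : P = ∑ i ∈ Finset.range n, C (P.coeff i) * X ^ i + C P.leadingCoeff * X ^ n := by
    conv_lhs => rw [P.as_sum_range_C_mul_X_pow]
    rw [Finset.sum_range_succ]
    rfl
  have hmemp : ∀ i, i < n → ∀ g : ℤ[X], C (P.coeff i) * g ∈ Ideal.span {(p : ℤ[X])} := by
    intro i hi g
    obtain ⟨c, hc⟩ := hco i hi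
    rw [hc, map_mul, hC, mul_assoc]
    exact Ideal.mul_mem_right _ _ (Ideal.mem_span_singleton_self _)
  have hple : Ideal.span {(p : ℤ[X])} ≤ Ideal.span {(p : ℤ[X]), P} :=
    Ideal.span_mono (by simp)
  -- `X ∈ J`
  have hXn : (X : ℤ[X]) ^ n ∈ Ideal.span {(p : ℤ[X]), P} := by
    obtain ⟨u, v, huv⟩ := bez p hp P.leadingCoeff hlc
    have h1 : C P.leadingCoeff * X ^ n ∈ Ideal.span {(p : ℤ[X]), P} := by
      have h2 : C P.leadingCoeff * X ^ n = P - ∑ i ∈ Finset.range n, C (P.coeff i) * X ^ i :=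
        eq_sub_of_add_eq' hsum.symm
      rw [h2]
      refine sub_mem hPI (sum_mem fun i hi => ?_)
      exact hple (hmemp i (Finset.mem_range.1 hi) _)
    have h2 : (X : ℤ[X]) ^ n = C u * (C P.leadingCoeff * X ^ n) + (p : ℤ[X]) * (C v * X ^ n) := by
      calc (X : ℤ[X]) ^ n = 1 * X ^ n := (one_mul _).symm
        _ = (C u * C P.leadingCoeff + C v * (p : ℤ[X])) * X ^ n := by rw [← huv]
        _ = _ := by ring
    rw [h2]
    exact add_mem (Ideal.mul_mem_left _ _ h1) (Ideal.mul_mem_right _ _ hpI)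
  have hX : (X : ℤ[X]) ∈ J := by
    apply Ideal.subset_span
    show (X : ℤ[X]) ^ p ^ j ∈ Ideal.span {(p : ℤ[X]) ^ (0 * p ^ j + 1), P}
    rw [hp1]
    exact Ideal.pow_mem_of_pow_mem _ hXn hdj
  -- `divX P ∈ J`
  have hdiv : P.divX ∈ J := by
    rw [P.divX.as_sum_range_C_mul_X_pow' (n := n) (by rw [natDegree_divX_eq_natDegree_tsub_one]; omega)]
    refine sum_mem fun i hi => ?_
    rw [Finset.mem_range] at hi
    rw [coeff_divX]
    by_cases h1 : i + 1 < n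
    · have h2 : Ideal.span {(p : ℤ[X])} ≤ J := by
        rw [Ideal.span_le]
        rintro x rfl
        exact hpJ
      exact h2 (hmemp _ h1 _)
    · refine Ideal.mul_mem_left _ _ (Ideal.pow_mem_of_mem _ hX i (by omega))
  set K := J ^ 2 ⊔ Ideal.span {(p : ℤ[X]) ^ (2 * 0 + 2), P} with hK
  have hPK : P ∈ K := Ideal.mem_sup_right (Ideal.subset_span (by simp))
  have hpp : (p : ℤ[X]) * p ∈ K := by
    apply Ideal.mem_sup_left
    rw [pow_two]
    exact Ideal.mul_mem_mul hpJ hpJ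
  have hc0 : C (P.coeff 0) ∈ K := by
    have h1 : C (P.coeff 0) = P - P.divX * X := eq_sub_of_add_eq' P.divX_mul_X_add
    rw [h1]
    refine sub_mem hPK (Ideal.mem_sup_left ?_)
    rw [pow_two]
    exact Ideal.mul_mem_mul hdiv hX
  obtain ⟨c, hc⟩ := hco 0 (by omega)
  have hpc : ¬ (p : ℤ) ∣ c := by
    rintro ⟨c', hc'⟩
    apply hE.notMem
    rw [Ideal.span_singleton_pow, Ideal.mem_span_singleton]
    exact ⟨c', by rw [hc, hc']; ring⟩
  obtain ⟨u, v, huv⟩ := bez p hp c hpc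
  have h1 : (p : ℤ[X]) = C u * C (P.coeff 0) + C v * ((p : ℤ[X]) * p) := by
    rw [hc, map_mul, hC]
    calc (p : ℤ[X]) = 1 * p := (one_mul _).symm
      _ = (C u * C c + C v * (p : ℤ[X])) * p := by rw [← huv]
      _ = _ := by ring
  show (p : ℤ[X]) ^ (2 * 0 + 1) ∈ K
  rw [mul_zero, zero_add, pow_one, h1]
  exact add_mem (Ideal.mul_mem_left _ _ hc0) (Ideal.mul_mem_left _ _ hpp)

theorem specQUA : SpecQUA := by
  intro p c j α β γ Δ hp hp2 hj hΔ hpΔ
  set P : ℤ[X] := C α * X ^ 2 + C β * X + C γ with hP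
  set F : ℤ[X] := C 2 * C α * X + C β with hF
  have hC : (C (p : ℤ) : ℤ[X]) = (p : ℤ[X]) := by simp
  have hF2 : F * F = (p : ℤ[X]) ^ (2 * c + 1) * C Δ + P * (C 4 * C α) := by
    have h1 : (C (β ^ 2 - 4 * α * γ) : ℤ[X]) = C ((p : ℤ) ^ (2 * c + 1) * Δ) := by rw [hΔ]
    rw [map_mul C, map_pow, hC, map_sub, map_pow, map_mul, map_mul] at h1
    rw [← h1, hF, hP]
    have h2 : (C 4 : ℤ[X]) = 4 := map_ofNat C 4
    have h3 : (C 2 : ℤ[X]) = 2 := map_ofNat C 2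
    rw [h2, h3]
    ring
  have hodd : Odd (p ^ j) := (hp.odd_of_ne_two hp2).pow
  obtain ⟨r, hr⟩ := hodd
  have hFS : F ∈ {F : ℤ[X] | F ^ p ^ j ∈ Ideal.span {(p : ℤ[X]) ^ (c * p ^ j + 1), P}} := by
    show F ^ p ^ j ∈ Ideal.span {(p : ℤ[X]) ^ (c * p ^ j + 1), P}
    have h1 : F ^ p ^ j = F * (F * F) ^ r := by
      rw [hr, pow_succ, pow_mul, ← pow_two]
      ring
    have h2 : (F * F) ^ r ∈ Ideal.span {(p : ℤ[X]) ^ (c * p ^ j + 1), P} := by
      have h3 : (F * F) ^ r - ((p : ℤ[X]) ^ (2 * c + 1) * C Δ) ^ r ∈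
          Ideal.span {(p : ℤ[X]) ^ (c * p ^ j + 1), P} := by
        have h4 : P ∣ F * F - (p : ℤ[X]) ^ (2 * c + 1) * C Δ := ⟨C 4 * C α, by rw [hF2]; ring⟩
        obtain ⟨g, hg⟩ := h4.trans (sub_dvd_pow_sub_pow _ _ r)
        rw [hg]
        exact Ideal.mul_mem_right _ _ (Ideal.subset_span (by simp))
      have h4 : ((p : ℤ[X]) ^ (2 * c + 1) * C Δ) ^ r ∈
          Ideal.span {(p : ℤ[X]) ^ (c * p ^ j + 1), P} := by
        rw [mul_pow, ← pow_mul]
        refine Ideal.mul_mem_right _ _ ?_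
        have h5 : c * p ^ j + 1 ≤ (2 * c + 1) * r := by
          rw [hr]
          have h6 : c + 1 ≤ r := by omega
          nlinarith
        have h6 : (p : ℤ[X]) ^ ((2 * c + 1) * r) = (p : ℤ[X]) ^ (c * p ^ j + 1) *
            (p : ℤ[X]) ^ ((2 * c + 1) * r - (c * p ^ j + 1)) := by
          rw [← pow_add]
          congr 1
          omega
        rw [h6]
        exact Ideal.mul_mem_right _ _ (Ideal.subset_span (by simp))
      have h5 := add_mem h3 h4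
      rwa [sub_add_cancel] at h5
    rw [h1]
    exact Ideal.mul_mem_left _ _ h2
  obtain ⟨u, v, huv⟩ := bez p hp Δ hpΔ
  have h1 : (p : ℤ[X]) ^ (2 * c + 1) = C u * (F * F) +
      ((p : ℤ[X]) ^ (2 * c + 2) * C v - P * (C u * (C 4 * C α))) := by
    calc (p : ℤ[X]) ^ (2 * c + 1) = (p : ℤ[X]) ^ (2 * c + 1) * 1 := (mul_one _).symm
      _ = (p : ℤ[X]) ^ (2 * c + 1) * (C u * C Δ + C v * (p : ℤ[X])) := by rw [← huv]
      _ = _ := by
        rw [hF2]
        ring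
  unfold Ram
  rw [h1]
  refine add_mem (Ideal.mem_sup_left (Ideal.mul_mem_left _ _ ?_)) (Ideal.mem_sup_right
    (sub_mem (Ideal.mul_mem_right _ _ (Ideal.subset_span (by simp)))
      (Ideal.mul_mem_right _ _ (Ideal.subset_span (by simp)))))
  rw [pow_two]
  exact Ideal.mul_mem_mul (Ideal.subset_span hFS) (Ideal.subset_span hFS)

end Pool.Agent.Lib.MP5b6025.RB
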