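import Pool.Agent.Lib.MP_5b6025_nt.RB.Nfr
import Pool.Agent.Lib.MP_5b6025_nt.RB.C

/-!
# Modules NFS, FIX: one number, all bases
-/

set_option autoImplicit false

open Polynomial NumberField

namespace Pool.Agent.Lib.MP5b6025.RB

open UB

theorem ram_c (p c j : ℕ) (P : ℤ[X]) (h : Ram p c j P) : Ram p (c + 1) j P := by
  unfold Ram at h ⊢
  set S : Set ℤ[X] := {F | F ^ p ^ j ∈ Ideal.span {(p : ℤ[X]) ^ (c * p ^ j + 1), P}} with hS
  set S' : Set ℤ[X] := {F | F ^ p ^ j ∈ Ideal.span {(p : ℤ[X]) ^ ((c + 1) * p ^ j + 1), P}} with hS'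
  have h1 : Ideal.span {(p : ℤ[X])} * Ideal.span S ≤ Ideal.span S' := by
    rw [Ideal.span_mul_span', Ideal.span_le]
    rintro x ⟨y, rfl, F, hF, rfl⟩
    apply Ideal.subset_span
    show ((p : ℤ[X]) * F) ^ p ^ j ∈ Ideal.span {(p : ℤ[X]) ^ ((c + 1) * p ^ j + 1), P}
    obtain ⟨a, B, h2⟩ := Ideal.mem_span_pair.1 hF
    rw [mul_pow, ← h2]
    have h3 : (p : ℤ[X]) ^ p ^ j * (a * (p : ℤ[X]) ^ (c * p ^ j + 1) + B * P) =
        (p : ℤ[X]) ^ ((c + 1) * p ^ j + 1) * a + P * ((p : ℤ[X]) ^ p ^ j * B) := by ring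
    rw [h3]
    exact add_mem (Ideal.mul_mem_right _ _ (Ideal.subset_span (by simp)))
      (Ideal.mul_mem_right _ _ (Ideal.subset_span (by simp)))
  obtain ⟨y, hy, z, hz, hyz⟩ := Submodule.mem_sup.1 h
  obtain ⟨a, B, h2⟩ := Ideal.mem_span_pair.1 hz
  have h3 : (p : ℤ[X]) ^ 2 * y ∈ Ideal.span S' ^ 2 := by
    refine (Ideal.pow_right_mono h1 2) ?_
    rw [mul_pow]
    exact Ideal.mul_mem_mul (Ideal.pow_mem_pow (Ideal.mem_span_singleton_self _) 2) hy
  have h4 : (p : ℤ[X]) ^ (2 * (c + 1) + 1) = (p : ℤ[X]) ^ 2 * y +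
      ((p : ℤ[X]) ^ (2 * (c + 1) + 2) * a + P * ((p : ℤ[X]) ^ 2 * B)) := by
    calc (p : ℤ[X]) ^ (2 * (c + 1) + 1) = (p : ℤ[X]) ^ 2 * (p : ℤ[X]) ^ (2 * c + 1) := by ring
      _ = (p : ℤ[X]) ^ 2 * (y + z) := by rw [hyz]
      _ = _ := by
        rw [← h2]
        ring
  rw [h4]
  exact add_mem (Ideal.mem_sup_left h3) (Ideal.mem_sup_right
    (add_mem (Ideal.mul_mem_right _ _ (Ideal.subset_span (by simp)))
      (Ideal.mul_mem_right _ _ (Ideal.subset_span (by simp)))))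

theorem ram_j (p c j : ℕ) (hp : p.Prime) (P : ℤ[X]) (h : Ram p c j P) : Ram p c (j + 1) P := by
  unfold Ram at h ⊢
  have hSS : {F : ℤ[X] | F ^ p ^ j ∈ Ideal.span {(p : ℤ[X]) ^ (c * p ^ j + 1), P}} ⊆
      {F : ℤ[X] | F ^ p ^ (j + 1) ∈ Ideal.span {(p : ℤ[X]) ^ (c * p ^ (j + 1) + 1), P}} → _ :=
    fun h1 => sup_le_sup_right (Ideal.pow_right_mono (Ideal.span_mono h1) 2)
      (Ideal.span {(p : ℤ[X]) ^ (2 * c + 2), P})
  refine (hSS ?_) h
  intro F hF
  show F ^ p ^ (j + 1) ∈ Ideal.span {(p : ℤ[X]) ^ (c * p ^ (j + 1) + 1), P}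
  obtain ⟨a, B, h2⟩ := Ideal.mem_span_pair.1 hF
  have h3 : F ^ p ^ (j + 1) = (F ^ p ^ j) ^ p := by rw [← pow_mul, ← pow_succ]
  have h4 : P ∣ (F ^ p ^ j) ^ p - (a * (p : ℤ[X]) ^ (c * p ^ j + 1)) ^ p := by
    refine dvd_trans ⟨B, ?_⟩ (sub_dvd_pow_sub_pow _ _ p)
    rw [← h2]
    ring
  obtain ⟨G, hG⟩ := h4
  have h5 : c * p ^ (j + 1) + 1 ≤ (c * p ^ j + 1) * p := by
    have := hp.one_lt
    rw [pow_succ]
    nlinarith
  have h6 : (F ^ p ^ j) ^ p = (p : ℤ[X]) ^ (c * p ^ (j + 1) + 1) *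
      ((p : ℤ[X]) ^ ((c * p ^ j + 1) * p - (c * p ^ (j + 1) + 1)) * a ^ p) + P * G := by
    rw [← hG, mul_pow, ← pow_mul, ← mul_assoc, ← pow_add, Nat.add_sub_cancel' h5]
    ring
  rw [h3, h6]
  exact add_mem (Ideal.mul_mem_right _ _ (Ideal.subset_span (by simp)))
    (Ideal.mul_mem_right _ _ (Ideal.subset_span (by simp)))

theorem ram_mono (p c j c' j' : ℕ) (hp : p.Prime) (hc : c ≤ c') (hj : j ≤ j') (P : ℤ[X])
    (h : Ram p c j P) : Ram p c' j' P := by
  obtain ⟨m, rfl⟩ := Nat.exists_eq_add_of_le hc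
  obtain ⟨l, rfl⟩ := Nat.exists_eq_add_of_le hj
  clear hc hj
  induction m with
  | zero =>
    induction l with
    | zero => exact h
    | succ l ih => exact ram_j p c (j + l) hp P ih
  | succ m ih => exact ram_c p (c + m) (j + l) P ih

theorem specNFS : SpecNFS := by
  intro p k x hp hx hram
  classical
  have hp0 : (p : ℝ) ≠ 0 := by exact_mod_cast hp.ne_zero
  have h1 : ∀ i : Fin (k + 1), ∃ (P : ℤ[X]) (c j : ℕ), aeval ((p : ℝ) ^ (i : ℕ) * x) P = 0 ∧
      Ram p c j P := by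
    intro i
    rcases Nat.eq_zero_or_pos (i : ℕ) with hi | hi
    · rw [hi, pow_zero, one_mul]
      exact specNFR p x hp hx fun Q hQ hpQ => (hram Q hQ hpQ).imp id fun h => h.2
    · have hk : k ≠ 0 := by
        have := i.2
        omega
      have hram' : ∀ L : IntermediateField ℚ ℝ, L = IntermediateField.adjoin ℚ {x} →
          ∀ Q : Ideal (𝓞 L), Q.IsPrime → ((p : ℕ) : 𝓞 L) ∈ Q → ((p : ℕ) : 𝓞 L) ∈ Q ^ 2 := by
        rintro L rfl Q hQ hpQ
        rcases hram Q hQ hpQ with h | h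
        · exact h
        · exact absurd h.1 hk
      have hK : IntermediateField.adjoin ℚ {(p : ℝ) ^ (i : ℕ) * x} =
          IntermediateField.adjoin ℚ {x} := by
        apply le_antisymm
        · rw [IntermediateField.adjoin_simple_le_iff]
          exact mul_mem (pow_mem (natCast_mem _ p) _) (IntermediateField.mem_adjoin_simple_self ℚ x)
        · rw [IntermediateField.adjoin_simple_le_iff]
          have h2 : x = ((p : ℝ) ^ (i : ℕ))⁻¹ * ((p : ℝ) ^ (i : ℕ) * x) := by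
            rw [← mul_assoc, inv_mul_cancel₀ (pow_ne_zero _ hp0), one_mul]
          have h3 : ((p : ℝ) ^ (i : ℕ))⁻¹ * ((p : ℝ) ^ (i : ℕ) * x) ∈
              IntermediateField.adjoin ℚ {(p : ℝ) ^ (i : ℕ) * x} :=
            mul_mem (inv_mem (pow_mem (natCast_mem _ p) _))
              (IntermediateField.mem_adjoin_simple_self ℚ _)
          rwa [← h2] at h3
      have halg : IsAlgebraic ℚ ((p : ℝ) ^ (i : ℕ) * x) :=
        ((isAlgebraic_natCast p).pow _).mul hx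
      exact specNFR p _ hp halg fun Q hQ hpQ => Or.inl (hram' _ hK Q hQ hpQ)
  choose P c j hP hR using h1
  set d := max 1 (Finset.univ.sup fun i => (P i).natDegree) with hd
  set H := Finset.univ.sup fun i => ∑ m ∈ Finset.range ((P i).natDegree + 1),
    ((P i).coeff m).natAbs with hH
  refine ⟨d, Finset.univ.sup c, Finset.univ.sup j, H, le_max_left _ _, fun s hs => ?_⟩
  have hs0 : s ≠ 0 := by
    rintro rfl
    exact hs (dvd_zero _)
  obtain ⟨i, n, hpn, hsn⟩ := Nat.exists_eq_pow_mul_and_not_dvd (Int.natAbs_ne_zero.2 hs0) p hp.ne_one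
  have hik : i < k + 1 := by
    by_contra hcon
    push Not at hcon
    apply hs
    have h2 : p ^ (k + 1) ∣ s.natAbs := by
      rw [hsn]
      exact Dvd.dvd.mul_right (pow_dvd_pow p hcon) n
    exact_mod_cast Int.natCast_dvd.2 h2
  set s' : ℤ := s.sign * n with hs'
  have hss' : s = (p : ℤ) ^ i * s' := by
    have h2 : s = s.sign * (s.natAbs : ℤ) := (Int.sign_mul_natAbs s).symm
    rw [hsn] at h2
    rw [hs']
    push_cast at h2
    linarith
  have hps' : ¬ (p : ℤ) ∣ s' := by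
    intro h
    apply hpn
    have h2 : (p : ℤ) ∣ n := by
      rw [hs'] at h
      rcases Int.sign_trichotomy s with h3 | h3 | h3
      · rwa [h3, one_mul] at h
      · exact absurd (Int.sign_eq_zero_iff_zero.1 h3) hs0
      · rw [h3, neg_one_mul] at h
        exact (dvd_neg.1 h)
    exact_mod_cast h2
  set W := (P ⟨i, hik⟩).scaleRoots s' with hW
  have hdeg : (P ⟨i, hik⟩).natDegree ≤ d :=
    (Finset.le_sup (f := fun i => (P i).natDegree) (Finset.mem_univ _)).trans (le_max_right _ _)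
  refine ⟨W, ?_, fun m => ?_, ?_, ?_⟩
  · rw [hW, natDegree_scaleRoots]
    exact hdeg
  · have hs1 : (1 : ℝ) ≤ |(s : ℝ)| := by
      have := Int.one_le_abs hs0
      exact_mod_cast this
    by_cases hm : m ≤ (P ⟨i, hik⟩).natDegree
    · rw [hW, coeff_scaleRoots]
      push_cast
      rw [abs_mul, abs_pow]
      have h2 : |((P ⟨i, hik⟩).coeff m : ℝ)| ≤ H := by
        have h3 : ((P ⟨i, hik⟩).coeff m).natAbs ≤ H := by
          refine le_trans ?_ (Finset.le_sup (f := fun i => ∑ m ∈ Finset.range ((P i).natDegree + 1),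
            ((P i).coeff m).natAbs) (Finset.mem_univ ⟨i, hik⟩))
          exact Finset.single_le_sum (f := fun m => ((P ⟨i, hik⟩).coeff m).natAbs)
            (fun _ _ => Nat.zero_le _) (Finset.mem_range.2 (by omega))
        have h4 : |((P ⟨i, hik⟩).coeff m : ℝ)| = (((P ⟨i, hik⟩).coeff m).natAbs : ℝ) := by
          rw [Nat.cast_natAbs]
          push_cast
          rfl
        rw [h4]
        exact_mod_cast h3
      have h3 : |(s' : ℝ)| ≤ |(s : ℝ)| := by
        rw [hss']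
        push_cast
        rw [abs_mul, abs_pow, Nat.abs_cast]
        have h4 : (1 : ℝ) ≤ (p : ℝ) ^ i := one_le_pow₀ (by exact_mod_cast hp.one_lt.le)
        nlinarith [abs_nonneg (s' : ℝ)]
      have h4 : |(s' : ℝ)| ^ ((P ⟨i, hik⟩).natDegree - m) ≤ |(s : ℝ)| ^ d :=
        (pow_le_pow_left₀ (abs_nonneg _) h3 _).trans (pow_le_pow_right₀ hs1 (by omega))
      exact mul_le_mul h2 h4 (by positivity) (by positivity)
    · have h2 : W.coeff m = 0 :=
        coeff_eq_zero_of_natDegree_lt (by rw [hW, natDegree_scaleRoots]; omega)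
      rw [h2]
      simp only [Int.cast_zero, abs_zero]
      positivity
  · have h2 := scaleRoots_aeval_eq_zero (r := s') (hP ⟨i, hik⟩)
    have h3 : (s : ℝ) * x = algebraMap ℤ ℝ s' * ((p : ℝ) ^ i * x) := by
      rw [hss']
      push_cast
      simp
      ring
    rw [h3]
    exact h2
  · exact ram_scaleRoots p _ _ hp _ s' hps' (ram_mono p _ _ _ _ hp
      (Finset.le_sup (Finset.mem_univ _)) (Finset.le_sup (Finset.mem_univ _)) _ (hR ⟨i, hik⟩))

theorem specFIX (hC : SpecC) : SpecFIX := by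
  intro p k x hp hx hram
  obtain ⟨d, c, j, H, hd, hW⟩ := specNFS p k x hp hx hram
  obtain ⟨δ, hδ, hC⟩ := hC p d c j hp hd
  refine ⟨δ / 2, by positivity, fun e he he1 => ?_⟩
  have hmin : min (e / 2) (1 / 2) = e / 2 := min_eq_left (by linarith)
  obtain ⟨N₁, hN₁⟩ := CM.exists_large ((3 * d + H + 1 : ℕ) : ℝ) e he
  rw [hmin] at hN₁
  obtain ⟨N₂, hN₂⟩ := hC (e / 2) (by linarith) (by linarith)
  refine ⟨max N₁ N₂, fun N b g hN hb hpb hgd hg hpg => ?_⟩
  have hN1 := hN₁ N ((le_max_left _ _).trans hN)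
  set E : ℝ := (N : ℝ) ^ (1 - e) with hE
  have hE0 : 0 ≤ E := by positivity
  have hb2 : (2 : ℝ) ≤ b := by exact_mod_cast hb
  have hb1 : (1 : ℝ) ≤ b := by linarith
  have hb0 : (0 : ℝ) < b := by linarith
  set A : ℝ := (b : ℝ) ^ (E + 1) with hA
  have hAE : (b : ℝ) ^ E ≤ A := Real.rpow_le_rpow_of_exponent_le hb1 (by linarith)
  have hbA : (b : ℝ) ≤ A := by
    calc (b : ℝ) = (b : ℝ) ^ (1 : ℝ) := (Real.rpow_one _).symm
      _ ≤ A := Real.rpow_le_rpow_of_exponent_le hb1 (by linarith)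
  have hA1 : 1 ≤ A := by linarith
  have hA0 : 0 ≤ A := by linarith
  have hEA : E + 1 ≤ A := by
    have h1 := one_add_mul_self_le_rpow_one_add (s := (1 : ℝ)) (by norm_num)
      (p := E + 1) (by linarith)
    have h2 : (1 + 1 : ℝ) ^ (E + 1) ≤ A :=
      Real.rpow_le_rpow (by norm_num) (by linarith) (by linarith)
    linarith
  have hgA : (g.natDegree : ℝ) + 1 ≤ A := by linarith
  have hbg : (b : ℝ) ^ g.natDegree ≤ A := by
    rw [← Real.rpow_natCast]
    exact (Real.rpow_le_rpow_of_exponent_le hb1 hgd).trans hAE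
  have hg' : ∀ i, |(g.coeff i : ℝ)| ≤ A := fun i => (hg i).trans hAE
  have hgb := CM.abs_eval_le g b A (by omega) hg' hgA hbg
  have hexp : ((3 * d + H + 1 : ℕ) : ℝ) * (E + 1) ≤ (N : ℝ) ^ (1 - e / 2) := hN1
  have hEle : E ≤ (N : ℝ) ^ (1 - e / 2) := by
    refine le_trans ?_ hexp
    push_cast
    have h1 : (0 : ℝ) ≤ 3 * d + H := by positivity
    nlinarith
  obtain ⟨W, hWd, hWc, hWx, hWR⟩ := hW (g.eval (b : ℤ)) hpg
  have h1 : δ / 2 * e = δ * (e / 2) := by ring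
  rw [h1]
  refine hN₂ N b W g x ((le_max_right _ _).trans hN) hb hpb hWd (hgd.trans hEle) (fun i => ?_)
    (fun i => (hg i).trans (Real.rpow_le_rpow_of_exponent_le hb1 hEle)) hWR hWx
  refine (hWc i).trans ?_
  have h2 : (H : ℝ) ≤ A ^ H := by
    have h3 : (H : ℝ) ≤ 2 ^ H := by exact_mod_cast (Nat.lt_two_pow_self (n := H)).le
    exact h3.trans (pow_le_pow_left₀ (by norm_num) (hb2.trans hbA) H)
  calc (H : ℝ) * |((g.eval (b : ℤ) : ℤ) : ℝ)| ^ d ≤ A ^ H * (A ^ 3) ^ d := by gcongr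
    _ = A ^ (3 * d + H) := by
        rw [← pow_mul, ← pow_add, add_comm]
    _ = (b : ℝ) ^ ((E + 1) * ((3 * d + H : ℕ) : ℝ)) := by
        rw [hA, ← Real.rpow_natCast, ← Real.rpow_mul hb0.le]
    _ ≤ (b : ℝ) ^ ((N : ℝ) ^ (1 - e / 2)) := by
        refine Real.rpow_le_rpow_of_exponent_le hb1 (le_trans ?_ hexp)
        push_cast
        nlinarith

end Pool.Agent.Lib.MP5b6025.RB
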