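import Pool.Agent.Lib.MP_5b6025_nt.RB.Fix
import Pool.Agent.Lib.MP_5b6025_nt.RB.A
import Pool.Agent.Lib.MP_5b6025_nt.RB.B

/-!
# Assembly
-/

set_option autoImplicit false

namespace Pool.Agent.Lib.MP5b6025.RB

theorem mainC : SpecC := specC (specB (specA specCERT specCORE))

theorem mainFIX : SpecFIX := specFIX mainC

end Pool.Agent.Lib.MP5b6025.RB
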