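import Pool.Agent.Lib.MP_5b6025_nt.RB.Eis
import Pool.Agent.Lib.MP_5b6025_nt.RM.ALG2

/-!
# Module NFR: the number field condition
-/

set_option autoImplicit false

open Polynomial NumberField

namespace Pool.Agent.Lib.MP5b6025.RB

namespace NfM

/-- The ideal of the integral polynomials which vanish at `x` is principal. -/
theorem exists_prim (x : ℝ) (hx : IsAlgebraic ℚ x) :
    ∃ P : ℤ[X], aeval x P = 0 ∧ ∀ G : ℤ[X], aeval x G = 0 → P ∣ G := by
  set m := minpoly ℚ x with hm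
  set N := IsLocalization.integerNormalization (nonZeroDivisors ℤ) m with hN
  obtain ⟨b, hb, hbN⟩ := IsLocalization.integerNormalization_spec (nonZeroDivisors ℤ) m
  have hm0 : m ≠ 0 := minpoly.ne_zero hx.isIntegral
  have hN0 : N ≠ 0 := fun h => hm0 (IsFractionRing.integerNormalization_eq_zero_iff.1 h)
  have hNx : aeval x N = 0 :=
    IsLocalization.integerNormalization_aeval_eq_zero _ _ (minpoly.aeval ℚ x)
  refine ⟨N.primPart, aeval_primPart_eq_zero hN0 hNx, fun G hG => ?_⟩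
  refine N.isPrimitive_primPart.dvd_of_fraction_map_dvd_fraction_map (K := ℚ) ?_
  have h1 : m ∣ G.map (algebraMap ℤ ℚ) := by
    apply minpoly.dvd
    rw [aeval_map_algebraMap]
    exact hG
  refine dvd_trans ?_ h1
  have hb0 : (b : ℚ) ≠ 0 := by
    have := nonZeroDivisors.ne_zero hb
    exact_mod_cast this
  have h2 : N.map (algebraMap ℤ ℚ) = C (algebraMap ℤ ℚ N.content) * N.primPart.map (algebraMap ℤ ℚ) := by
    conv_lhs => rw [N.eq_C_content_mul_primPart]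
    rw [Polynomial.map_mul, map_C]
  refine ⟨C ((b : ℚ)⁻¹ * algebraMap ℤ ℚ N.content), ?_⟩
  have h3 : C (b : ℚ) * m = C (algebraMap ℤ ℚ N.content) * N.primPart.map (algebraMap ℤ ℚ) := by
    rw [← h2, hN, hbN, ← smul_eq_C_mul]
    ext i
    simp
  have h4 : m = C (b : ℚ)⁻¹ * (C (b : ℚ) * m) := by
    rw [← mul_assoc, ← C_mul, inv_mul_cancel₀ hb0, C_1, one_mul]
  rw [h4, h3, C_mul]
  ring

/-- Elements of `ℚ(x)` have multiples in `ℤ[x]`. -/
theorem exists_mul (x : ℝ) (hx : IsAlgebraic ℚ x) (θ : ℝ)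
    (hθ : θ ∈ IntermediateField.adjoin ℚ {x}) :
    ∃ (n : ℤ) (F : ℤ[X]), n ≠ 0 ∧ aeval x F = n * θ := by
  have h1 : θ ∈ Algebra.adjoin ℚ {x} := by
    have h2 : (IntermediateField.adjoin ℚ {x}).toSubalgebra = Algebra.adjoin ℚ {x} :=
      IntermediateField.adjoin_simple_toSubalgebra_of_isAlgebraic hx
    rw [← h2]
    exact hθ
  rw [Algebra.adjoin_singleton_eq_range_aeval] at h1
  obtain ⟨f, hf⟩ := h1
  have hf : aeval x f = θ := hf
  obtain ⟨b, hb, hbN⟩ := IsLocalization.integerNormalization_spec (nonZeroDivisors ℤ) f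
  refine ⟨b, IsLocalization.integerNormalization (nonZeroDivisors ℤ) f,
    nonZeroDivisors.ne_zero hb, ?_⟩
  rw [← hf, ← aeval_map_algebraMap ℚ, hbN]
  simp

end NfM

open NfM RM.ALG2M in
theorem specNFR : SpecNFR := by
  intro p x hp hx hram
  classical
  have : Fact p.Prime := ⟨hp⟩
  have hp0 : (p : ℝ) ≠ 0 := by exact_mod_cast hp.ne_zero
  set K := IntermediateField.adjoin ℚ {x} with hK
  have hfin : FiniteDimensional ℚ K :=
    IntermediateField.adjoin.finiteDimensional hx.isIntegral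
  have hnf : NumberField K := { to_charZero := inferInstance, to_finiteDimensional := hfin }
  obtain ⟨P, hPx, hPd⟩ := exists_prim x hx
  -- a common denominator for the integers of `K`
  have hden : ∃ N : ℕ, N ≠ 0 ∧ ∀ θ : 𝓞 K, ∃ F : ℤ[X], aeval x F = N * ((θ : K) : ℝ) := by
    have h1 : ∀ i, ∃ (n : ℤ) (F : ℤ[X]), n ≠ 0 ∧
        aeval x F = n * (((RingOfIntegers.basis K i : 𝓞 K) : K) : ℝ) := fun i =>
      exists_mul x hx _ ((RingOfIntegers.basis K i : 𝓞 K) : K).2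
    choose n F hn hF using h1
    refine ⟨(∏ i, n i).natAbs, ?_, fun θ => ?_⟩
    · rw [Int.natAbs_ne_zero]
      exact Finset.prod_ne_zero_iff.2 fun i _ => hn i
    · have h2 : ∀ i, ∃ G : ℤ[X], aeval x G =
          ((∏ i, n i).natAbs : ℝ) * (((RingOfIntegers.basis K i : 𝓞 K) : K) : ℝ) := by
        intro i
        have h3 : n i ∣ ((∏ i, n i).natAbs : ℤ) :=
          (Finset.dvd_prod_of_mem n (Finset.mem_univ i)).trans (Int.dvd_natAbs_self)
        obtain ⟨m, hm⟩ := h3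
        refine ⟨C m * F i, ?_⟩
        rw [map_mul, aeval_C, hF i]
        have h4 : (((∏ i, n i).natAbs : ℕ) : ℝ) = (n i : ℝ) * (m : ℝ) := by
          rw [Nat.cast_natAbs]
          exact_mod_cast hm
        rw [h4]
        simp
        ring
      choose G hG using h2
      refine ⟨∑ i, C ((RingOfIntegers.basis K).repr θ i) * G i, ?_⟩
      have h3 : θ = ∑ i, (RingOfIntegers.basis K).repr θ i • RingOfIntegers.basis K i :=
        ((RingOfIntegers.basis K).sum_repr θ).symm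
      have h4 : ((θ : K) : ℝ) = ∑ i, ((RingOfIntegers.basis K).repr θ i : ℝ) *
          (((RingOfIntegers.basis K i : 𝓞 K) : K) : ℝ) := by
        conv_lhs => rw [h3]
        push_cast [zsmul_eq_mul]
        rfl
      rw [map_sum, h4, Finset.mul_sum]
      refine Finset.sum_congr rfl fun i _ => ?_
      rw [map_mul, aeval_C, hG]
      simp
      ring
  obtain ⟨N, hN0, hN⟩ := hden
  obtain ⟨c, m, hpm, hNm⟩ := Nat.exists_eq_pow_mul_and_not_dvd hN0 p hp.ne_one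
  have hpmZ : ¬ (p : ℤ) ∣ (m : ℤ) := fun h => hpm (by exact_mod_cast h)
  have hNr : (N : ℝ) = (p : ℝ) ^ c * m := by exact_mod_cast hNm
  have hpT : aeval x ((p : ℕ) : ℤ[X]) = (p : ℝ) := by simp
  -- the sets of polynomials
  set S : ℕ → Set ℤ[X] := fun j =>
    {F | F ^ p ^ j ∈ Ideal.span {(p : ℤ[X]) ^ (c * p ^ j + 1), P}} with hS
  have hpne : ((p : ℕ) : 𝓞 K) ≠ 0 := by exact_mod_cast hp.ne_zero
  set I := (Ideal.span {((p : ℕ) : 𝓞 K)}).radical with hI
  have hIrad : I.IsRadical := Ideal.radical_isRadical _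
  have hpI : ((p : ℕ) : 𝓞 K) ∈ I := Ideal.le_radical (Ideal.mem_span_singleton_self _)
  have hI0 : I ≠ ⊥ := by
    intro h
    rw [h] at hpI
    exact hpne (by simpa using hpI)
  -- cancelling a factor prime to `p`
  have hcancel : ∀ (a : ℤ) (k : ℕ) (F : ℤ[X]), ¬ (p : ℤ) ∣ a →
      C a * F ∈ Ideal.span {(p : ℤ[X]) ^ k, P} → F ∈ Ideal.span {(p : ℤ[X]) ^ k, P} := by
    intro a k F ha hF
    have hpi : Prime (p : ℤ) := Nat.prime_iff_prime_int.1 hp
    have h1 : IsCoprime ((p : ℤ) ^ k) a := ((Prime.coprime_iff_not_dvd hpi).2 ha).pow_left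
    obtain ⟨v, u, h2⟩ := h1
    have h3 : F = C u * (C a * F) + (p : ℤ[X]) ^ k * (C v * F) := by
      have h4 : (1 : ℤ[X]) = C u * C a + C v * (p : ℤ[X]) ^ k := by
        have h5 : (p : ℤ[X]) ^ k = C ((p : ℤ) ^ k) := by simp
        rw [h5, ← map_mul, ← map_mul, ← map_add, ← map_one C]
        congr 1
        linarith
      calc F = 1 * F := (one_mul _).symm
        _ = (C u * C a + C v * (p : ℤ[X]) ^ k) * F := by rw [← h4]
        _ = _ := by ring
    rw [h3]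
    exact add_mem (Ideal.mul_mem_left _ _ hF) (Ideal.mul_mem_right _ _ (Ideal.subset_span (by simp)))
  have hker : ∀ (k : ℕ) (F W : ℤ[X]), aeval x F = (p : ℝ) ^ k * aeval x W →
      F ∈ Ideal.span {(p : ℤ[X]) ^ k, P} := by
    intro k F W h
    have h1 : P ∣ F - (p : ℤ[X]) ^ k * W := by
      apply hPd
      rw [map_sub, map_mul, map_pow, hpT, h, sub_self]
    obtain ⟨G, hG⟩ := h1
    have h2 : F = (p : ℤ[X]) ^ k * W + P * G := by rw [← hG]; ring
    rw [h2]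
    exact add_mem (Ideal.mul_mem_right _ _ (Ideal.subset_span (by simp)))
      (Ideal.mul_mem_right _ _ (Ideal.subset_span (by simp)))
  -- elements of the radical of `p`
  have hradI : ∀ θ ∈ I, ∃ F : ℤ[X], aeval x F = (m : ℝ) * (p : ℝ) ^ c * ((θ : K) : ℝ) ∧
      ∃ J₀ : ℕ, ∀ j, J₀ ≤ j → F ∈ S j := by
    intro θ hθ
    obtain ⟨F, hF⟩ := hN θ
    refine ⟨F, by rw [hF, hNr]; ring, ?_⟩
    obtain ⟨n, hn⟩ := hθ
    obtain ⟨ω, hω⟩ := Ideal.mem_span_singleton.1 hn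
    refine ⟨n * (c + 1), fun j hj => ?_⟩
    have hjq : n * (c + 1) ≤ p ^ j := hj.trans (Nat.lt_pow_self hp.one_lt).le
    obtain ⟨r, hr⟩ := Nat.exists_eq_add_of_le hjq
    -- `θ^q = p^(c+1) ω'`
    set ω' : 𝓞 K := ω ^ (c + 1) * θ ^ r with hω'
    have h1 : θ ^ p ^ j = ((p : ℕ) : 𝓞 K) ^ (c + 1) * ω' := by
      rw [hr, pow_add, pow_mul, hω, mul_pow, hω']
      ring
    obtain ⟨W, hW⟩ := hN ω'
    show F ^ p ^ j ∈ Ideal.span {(p : ℤ[X]) ^ (c * p ^ j + 1), P}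
    refine hcancel (m : ℤ) _ _ hpmZ (hker _ _ (C ((m : ℤ) ^ (p ^ j)) * W) ?_)
    have h2 : ((θ : K) : ℝ) ^ p ^ j = (p : ℝ) ^ (c + 1) * ((ω' : K) : ℝ) := by
      have h3 := congrArg (fun z : 𝓞 K => ((z : K) : ℝ)) h1
      simpa using h3
    have h3 : aeval x (C (m : ℤ) * F ^ p ^ j) = (m : ℝ) * ((N : ℝ) * ((θ : K) : ℝ)) ^ p ^ j := by
      rw [map_mul, map_pow, hF, aeval_C]
      simp
    have h4 : aeval x (C ((m : ℤ) ^ p ^ j) * W) = (m : ℝ) ^ p ^ j * ((N : ℝ) * ((ω' : K) : ℝ)) := by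
      rw [map_mul, hW, aeval_C]
      simp
    rw [h3, h4, mul_pow, h2, hNr, mul_pow]
    ring
  -- the denominator ideal
  let 𝔟 : Ideal (𝓞 K) :=
    { carrier := {s | IsIntegral ℤ (((s : K) : ℝ) * x)}
      add_mem' := by
        intro s t hs ht
        have h1 : (((s + t : 𝓞 K) : K) : ℝ) * x =
            ((s : K) : ℝ) * x + ((t : K) : ℝ) * x := by
          push_cast
          ring
        rw [Set.mem_ofPred_eq, h1]
        exact hs.add ht
      zero_mem' := by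
        rw [Set.mem_ofPred_eq]
        simpa using isIntegral_zero
      smul_mem' := by
        intro c s hs
        have h1 : (((c • s : 𝓞 K) : K) : ℝ) * x =
            ((c : K) : ℝ) * (((s : K) : ℝ) * x) := by
          rw [smul_eq_mul]
          push_cast
          ring
        rw [Set.mem_ofPred_eq, h1]
        exact ((RingOfIntegers.isIntegral_coe c).map (IsScalarTower.toAlgHom ℤ K ℝ)).mul hs }
  have hmem𝔟 : ∀ s : 𝓞 K, s ∈ 𝔟 ↔ IsIntegral ℤ (((s : K) : ℝ) * x) := fun _ => Iff.rfl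
  have hxK : x ∈ K := IntermediateField.mem_adjoin_simple_self ℚ x
  have hone : ∃ d₁ ∈ 𝔟, ∃ d₂ ∈ 𝔟, (1 : ℝ) = x * ((d₁ : K) : ℝ) + ((d₂ : K) : ℝ) := by
    have halgZ : IsAlgebraic ℤ x := (IsFractionRing.isAlgebraic_iff ℤ ℚ ℝ).2 hx
    obtain ⟨m, hm0, hm⟩ := halgZ.exists_integral_multiple
    have hmR : (m : ℝ) ≠ 0 := by exact_mod_cast hm0
    have hmem : m • x ∈ K := K.zsmul_mem hxK m
    have hintK : IsIntegral ℤ (⟨m • x, hmem⟩ : K) := by
      have h1 : IsIntegral ℤ (algebraMap K ℝ ⟨m • x, hmem⟩) := hm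
      exact (isIntegral_algebraMap_iff (algebraMap K ℝ).injective).1 h1
    set a : 𝓞 K := ⟨⟨m • x, hmem⟩, hintK⟩ with ha
    have haR : ((a : K) : ℝ) = m * x := by
      rw [ha]
      exact zsmul_eq_mul _ _
    obtain ⟨d₁, d₂, e, ⟨u₁, h₁⟩, u₂, h₂⟩ := denom a (m : 𝓞 K)
    have e' := congrArg (fun z : 𝓞 K => ((z : K) : ℝ)) e
    have h₁' := congrArg (fun z : 𝓞 K => ((z : K) : ℝ)) h₁
    have h₂' := congrArg (fun z : 𝓞 K => ((z : K) : ℝ)) h₂
    have hmK : ((((m : ℤ) : 𝓞 K) : K) : ℝ) = (m : ℝ) := by simp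
    push_cast at e' h₁' h₂'
    rw [hmK, haR] at e' h₁' h₂'
    have hu : ∀ u : 𝓞 K, IsIntegral ℤ ((u : K) : ℝ) := fun u =>
      (RingOfIntegers.isIntegral_coe u).map (IsScalarTower.toAlgHom ℤ K ℝ)
    refine ⟨d₁, ?_, d₂, ?_, ?_⟩
    · rw [hmem𝔟]
      have h3 : ((d₁ : K) : ℝ) * x = ((u₁ : K) : ℝ) := by
        apply mul_left_cancel₀ hmR
        linear_combination h₁'
      rw [h3]
      exact hu u₁
    · rw [hmem𝔟]
      have h3 : ((d₂ : K) : ℝ) * x = ((u₂ : K) : ℝ) := by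
        apply mul_left_cancel₀ hmR
        linear_combination h₂'
      rw [h3]
      exact hu u₂
    · apply mul_left_cancel₀ hmR
      linear_combination e'
  let J : Ideal (𝓞 K) :=
    { carrier := {θ | ∀ β ∈ 𝔟, θ * β ∈ I}
      add_mem' := by
        intro s t hs ht β hβ
        rw [add_mul]
        exact I.add_mem (hs β hβ) (ht β hβ)
      zero_mem' := by
        intro β _
        rw [zero_mul]
        exact I.zero_mem
      smul_mem' := by
        intro c s hs β hβ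
        rw [smul_eq_mul, mul_assoc]
        exact I.mul_mem_left _ (hs β hβ) }
  have hmemJ : ∀ θ : 𝓞 K, θ ∈ J ↔ ∀ β ∈ 𝔟, θ * β ∈ I := fun _ => Iff.rfl
  have hIJ : I ≤ J := fun θ hθ β _ => I.mul_mem_right _ hθ
  have hJrad : J.IsRadical := by
    rintro θ ⟨n, hn⟩ β hβ
    have h1 := (hmemJ _).1 hn β hβ
    refine hIrad ⟨n + 1, ?_⟩
    have h2 : (θ * β) ^ (n + 1) = (θ ^ n * β) * (θ * β ^ n) := by ring
    rw [h2]
    exact I.mul_mem_right _ h1
  have hmem : ((p : ℕ) : 𝓞 K) ∈ J ^ 2 := by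
    refine rad_sq _ hpne J hJrad (hIJ hpI) ?_
    intro Q hQ hJQ
    rcases hram Q hQ (hJQ (hIJ hpI)) with h1 | hi
    · exact h1
    · exfalso
      obtain ⟨c, hcQ, hc⟩ := cofactor I Q hI0 hIrad hQ (hIJ.trans hJQ)
      refine hcQ (hJQ ((hmemJ c).2 fun β hβ => ?_))
      rw [mul_comm]
      exact hc β (hi β ((hmem𝔟 β).1 hβ))
  -- elements of `J`
  have hJ : ∀ θ ∈ J, ∃ F : ℤ[X], aeval x F = (m : ℝ) * (p : ℝ) ^ c * ((θ : K) : ℝ) ∧
      ∃ J₀ : ℕ, ∀ j, J₀ ≤ j → F ∈ Ideal.span (S j) := by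
    intro θ hθ
    obtain ⟨d₁, hd₁, d₂, hd₂, e⟩ := hone
    obtain ⟨F₁, h1, J₁, h2⟩ := hradI _ (hθ d₁ hd₁)
    obtain ⟨F₂, h3, J₂, h4⟩ := hradI _ (hθ d₂ hd₂)
    refine ⟨X * F₁ + F₂, ?_, max J₁ J₂, fun j hj => ?_⟩
    · rw [map_add, map_mul, aeval_X, h1, h3]
      push_cast
      linear_combination - (m : ℝ) * (p : ℝ) ^ c * ((θ : K) : ℝ) * e
    · exact add_mem (Ideal.mul_mem_left _ _ (Ideal.subset_span (h2 j ((le_max_left _ _).trans hj))))
        (Ideal.subset_span (h4 j ((le_max_right _ _).trans hj)))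
  have hall : ∀ z ∈ J ^ 2, ∃ F : ℤ[X],
      aeval x F = ((m : ℝ) * (p : ℝ) ^ c) ^ 2 * ((z : K) : ℝ) ∧
      ∃ J₀ : ℕ, ∀ j, J₀ ≤ j → F ∈ (Ideal.span (S j)) ^ 2 := by
    intro z hz
    rw [pow_two] at hz
    refine Submodule.mul_induction_on hz ?_ ?_
    · intro α hα β hβ
      obtain ⟨F₁, h1, J₁, h2⟩ := hJ α hα
      obtain ⟨F₂, h3, J₂, h4⟩ := hJ β hβ
      refine ⟨F₁ * F₂, ?_, max J₁ J₂, fun j hj => ?_⟩
      · rw [map_mul, h1, h3]
        push_cast
        ring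
      · rw [pow_two]
        exact Ideal.mul_mem_mul (h2 j ((le_max_left _ _).trans hj))
          (h4 j ((le_max_right _ _).trans hj))
    · rintro α β ⟨F₁, h1, J₁, h2⟩ ⟨F₂, h3, J₂, h4⟩
      refine ⟨F₁ + F₂, ?_, max J₁ J₂, fun j hj => ?_⟩
      · rw [map_add, h1, h3]
        push_cast
        ring
      · exact add_mem (h2 j ((le_max_left _ _).trans hj)) (h4 j ((le_max_right _ _).trans hj))
  obtain ⟨F, hF, J₀, hFJ⟩ := hall _ hmem
  refine ⟨P, c, J₀, hPx, ?_⟩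
  have hpK : ((((p : ℕ) : 𝓞 K) : K) : ℝ) = (p : ℝ) := by simp
  rw [hpK] at hF
  have hP2 : P ∣ C ((m : ℤ) ^ 2) * (p : ℤ[X]) ^ (2 * c + 1) - F := by
    apply hPd
    have h1 : aeval x (C ((m : ℤ) ^ 2) * (p : ℤ[X]) ^ (2 * c + 1)) =
        (m : ℝ) ^ 2 * (p : ℝ) ^ (2 * c + 1) := by simp
    rw [map_sub, h1, hF]
    ring
  obtain ⟨G, hG⟩ := hP2
  obtain ⟨u, v, huv⟩ := bez p hp ((m : ℤ) ^ 2) (fun h =>
    hpmZ ((Nat.prime_iff_prime_int.1 hp).dvd_of_dvd_pow h))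
  have h1 : (p : ℤ[X]) ^ (2 * c + 1) = C u * F + ((p : ℤ[X]) ^ (2 * c + 2) * C v + P * (C u * G)) := by
    calc (p : ℤ[X]) ^ (2 * c + 1) = (C u * C ((m : ℤ) ^ 2) + C v * (p : ℤ[X])) *
          (p : ℤ[X]) ^ (2 * c + 1) := by rw [← huv, one_mul]
      _ = C u * F + ((p : ℤ[X]) ^ (2 * c + 2) * C v +
          C u * (C ((m : ℤ) ^ 2) * (p : ℤ[X]) ^ (2 * c + 1) - F)) := by ring
      _ = _ := by
        rw [hG]
        ring
  unfold Ram
  rw [h1]
  exact add_mem (Ideal.mem_sup_left (Ideal.mul_mem_left _ _ (hFJ J₀ le_rfl))) (Ideal.mem_sup_right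
    (add_mem (Ideal.mul_mem_right _ _ (Ideal.subset_span (by simp)))
      (Ideal.mul_mem_right _ _ (Ideal.subset_span (by simp)))))

end Pool.Agent.Lib.MP5b6025.RB
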